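import Mathlib
import Pool.Agent.H373R2.NB.Weyl

/-!
# Low digits of powers of a prime: definitions and tasks
-/

set_option autoImplicit false

namespace Pool.Agent.H46R3.DG

open Finset
open Pool.Agent.Helper602.MK (ee)
open Pool.Agent.H373R2.NB (Ph IW IW_all)

/-- how many of the places `0, …, L - 1` of `m` in base `q` carry the digit `b` -/
def cnt (q m L b : ℕ) : ℕ := #{i ∈ range L | m / q ^ i % q = b}

/-- the order `T` of `p` to a small power of `q`, with the exact power of `q` dividing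
`p ^ (T q^j) - 1` -/
structure Dat (p q T s : ℕ) : Prop where
  hp : p.Prime
  hq : q.Prime
  hpq : p ≠ q
  hT : 1 ≤ T
  hs : 1 ≤ s
  lte : ∀ j : ℕ, ∃ u : ℕ, ¬ q ∣ u ∧ p ^ (T * q ^ j) = 1 + q ^ (j + s) * u

/-- A: binomial polynomials are polynomial phases. -/
def TaskA : Prop := ∀ (d : ℕ) (c : ℕ → ℝ),
  Ph d (c d) (fun n => ∑ i ∈ range (d + 1), c i * (n.choose i : ℝ))

/-- B: lifting the exponent. -/
def TaskB : Prop := ∀ p q : ℕ, p.Prime → q.Prime → p ≠ q → ∃ T s : ℕ, Dat p q T s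

/-- C: exponential sums with small modulus (complete sums vanish). -/
def TaskC : Prop := ∀ p q T s : ℕ, Dat p q T s → ∀ k a N : ℕ, s < k → ¬ q ∣ a →
  ‖∑ n ∈ range N, ee ((a : ℝ) * (p : ℝ) ^ n / (q : ℝ) ^ k)‖ ≤ (T : ℝ) * (q : ℝ) ^ k

/-- D: Weyl bound for the phases `X (1 + q^J u)^n / q^(dJ + r)`. -/
def TaskD : Prop := ∀ d : ℕ, 1 ≤ d → ∃ c m : ℕ, 1 ≤ c ∧ ∀ (q J r M X u : ℕ) (v : ℝ), q.Prime →
  ¬ q ∣ X → ¬ q ∣ u → r ≤ J → 1 ≤ M → 1 ≤ v → (c : ℝ) * v ^ m < (q : ℝ) ^ r →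
  (c : ℝ) * v ^ m * (q : ℝ) ^ r < (M : ℝ) ^ d →
  ‖∑ n ∈ range M, ee ((X : ℝ) * (1 + (q : ℝ) ^ J * u) ^ n / (q : ℝ) ^ (d * J + r))‖ ≤ M / v

/-- power saving for the exponential sums over the powers of `p` -/
def ESum (p q s : ℕ) : Prop := ∀ C : ℝ, 0 < C → ∃ δ K : ℝ, 0 < δ ∧ 0 < K ∧ ∀ N k a : ℕ,
  1 ≤ N → s < k → (k : ℝ) ≤ C * Real.log N → ¬ q ∣ a →
  ‖∑ n ∈ range N, ee ((a : ℝ) * (p : ℝ) ^ n / (q : ℝ) ^ k)‖ ≤ K * (N : ℝ) ^ (1 - δ)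

/-- E: the exponential sums over powers of `p`. -/
def TaskE : Prop := ∀ p q T s : ℕ, Dat p q T s → ESum p q s

/-- F1: counting with finite Fourier analysis modulo `q^(t+l)`. -/
def TaskF1 : Prop := ∀ (q t l w N : ℕ) (x : ℕ → ℕ) (B : ℝ), 2 ≤ q → w < q ^ l → 0 ≤ B →
  (∀ h : ℕ, 0 < h → h < q ^ (t + l) → ¬ q ^ l ∣ h →
    ‖∑ n ∈ range N, ee ((h : ℝ) * (x n : ℝ) / (q : ℝ) ^ (t + l))‖ ≤ B) →
  |((#{n ∈ range N | x n / q ^ t % q ^ l = w} : ℕ) : ℝ) - (N : ℝ) / (q : ℝ) ^ l| ≤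
    (1 + ((t + l : ℕ) : ℝ) * Real.log q) * B

/-- distribution of the blocks of digits of `p^n` -/
def Blk (p q s : ℕ) : Prop := ∀ C : ℝ, 0 < C → ∃ δ K : ℝ, 0 < δ ∧ 0 < K ∧ ∀ N t l w : ℕ,
  1 ≤ N → s ≤ t → ((t + l : ℕ) : ℝ) ≤ C * Real.log N → w < q ^ l →
  |((#{n ∈ range N | p ^ n / q ^ t % q ^ l = w} : ℕ) : ℝ) - (N : ℝ) / (q : ℝ) ^ l| ≤
    K * (N : ℝ) ^ (1 - δ)

/-- F2: from exponential sums to blocks. -/
def TaskF2 : Prop := ∀ p q s : ℕ, p.Prime → q.Prime → ESum p q s → Blk p q s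

/-- G: large deviations for words. -/
def TaskG : Prop := ∀ (q : ℕ) (ε : ℝ), 2 ≤ q → 0 < ε → ∃ η K : ℝ, 0 < η ∧ 0 < K ∧ ∀ l b : ℕ,
  b < q → ((#{w ∈ range (q ^ l) | ε * l < |(cnt q w l b : ℝ) - (l : ℝ) / q|} : ℕ) : ℝ) ≤
    K * (q : ℝ) ^ ((1 - η) * (l : ℝ))

/-- equidistribution of the digits in the lowest `C log N` places of `p^n`, `n < N` -/
def LowDigits (p q : ℕ) : Prop := ∀ C ε : ℝ, 0 < C → 0 < ε → ∃ δ K : ℝ, 0 < δ ∧ 0 < K ∧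
  ∀ N : ℕ, 1 ≤ N →
  ((#{n ∈ range N | ∃ b < q, ε * Real.log N <
    |(cnt q (p ^ n) ⌊C * Real.log N⌋₊ b : ℝ) - C * Real.log N / q|} : ℕ) : ℝ) ≤
    K * (N : ℝ) ^ (1 - δ)

/-- H: assembling the blocks. -/
def TaskH : Prop := TaskG → ∀ p q s : ℕ, p.Prime → q.Prime → Blk p q s → LowDigits p q

/-- few digits `b` in the whole expansion -/
def FewDigits (p q : ℕ) : Prop := ∀ C : ℝ, 0 < C → ∃ δ K : ℝ, 0 < δ ∧ 0 < K ∧
  ∀ N : ℕ, 1 ≤ N →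
  ((#{n ∈ range N | ∃ b < q, ((Nat.digits q (p ^ n)).count b : ℝ) ≤ C * Real.log N} : ℕ) : ℝ) ≤
    K * (N : ℝ) ^ (1 - δ)

/-- I: from the lowest places to the whole expansion. -/
def TaskI : Prop := ∀ p q : ℕ, p.Prime → q.Prime → p ≠ q → LowDigits p q → FewDigits p q

/-- The assembly. -/
theorem assembly (hA : TaskA) (hB : TaskB) (hC : TaskC) (hD : TaskA → TaskD)
    (hE : TaskC → TaskD → TaskE) (hF1 : TaskF1) (hF2 : TaskF1 → TaskF2) (hG : TaskG) (hH : TaskH)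
    (hI : TaskI) (p q : ℕ) (hp : p.Prime) (hq : q.Prime) (hpq : p ≠ q) :
    LowDigits p q ∧ FewDigits p q := by
  obtain ⟨T, s, hD0⟩ := hB p q hp hq hpq
  have h1 : ESum p q s := hE hC (hD hA) p q T s hD0
  have h2 : LowDigits p q := hH hG p q s hp hq (hF2 hF1 p q s hp hq h1)
  exact ⟨h2, hI p q hp hq hpq h2⟩

end Pool.Agent.H46R3.DG
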