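import Mathlib
import Pool.Agent.H46R3.DG.Stmts

set_option autoImplicit false

namespace Pool.Agent.H46R3.DG

open Finset
open Pool.Agent.Helper602.MK (ee)

/-- at how many of the places `i < W` the base-`q` expansion of `m` shows the word `v` of length
`L` (places `i, …, i + L - 1`) -/
def cw (q L m W v : ℕ) : ℕ := #{i ∈ range W | m / q ^ i % q ^ L = v}

/-- large deviations for occurrences of words of length `L` in words of length `l` -/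
def LDW : Prop := ∀ (q L : ℕ) (ε : ℝ), 2 ≤ q → 1 ≤ L → 0 < ε → ∃ η K : ℝ, 0 < η ∧ 0 < K ∧
  ∀ l v : ℕ, v < q ^ L →
  ((#{w ∈ range (q ^ l) | ε * l < |(cw q L w l v : ℝ) - (l : ℝ) / (q : ℝ) ^ L|} : ℕ) : ℝ) ≤
    K * (q : ℝ) ^ ((1 - η) * (l : ℝ))

/-- GW: large deviations for words from large deviations for digits. -/
def TaskGW : Prop := TaskG → LDW

/-- distribution of the blocks of digits of `z p^n`, uniformly in `z` -/
def BlkU (p q s : ℕ) : Prop := ∀ C : ℝ, 0 < C → ∃ δ K : ℝ, 0 < δ ∧ 0 < K ∧ ∀ N t l w z : ℕ,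
  1 ≤ N → s ≤ t → ((t + l : ℕ) : ℝ) ≤ C * Real.log N → w < q ^ l → ¬ q ∣ z →
  |((#{n ∈ range N | z * p ^ n / q ^ t % q ^ l = w} : ℕ) : ℝ) - (N : ℝ) / (q : ℝ) ^ l| ≤
    K * (N : ℝ) ^ (1 - δ)

/-- normality of the digits in the lowest `C log N` places of `z p^n`, `n < N` -/
def LowU (p q : ℕ) : Prop := ∀ (C ε : ℝ) (L : ℕ), 0 < C → 0 < ε → 1 ≤ L →
  ∃ δ K : ℝ, 0 < δ ∧ 0 < K ∧ ∀ N z : ℕ, 1 ≤ N → ¬ q ∣ z →
  ((#{n ∈ range N | ∃ v < q ^ L, ε * Real.log N <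
    |(cw q L (z * p ^ n) ⌊C * Real.log N⌋₊ v : ℝ) - C * Real.log N / (q : ℝ) ^ L|} : ℕ) : ℝ) ≤
    K * (N : ℝ) ^ (1 - δ)

/-- few digits `b` in the whole expansion of `z p^n` -/
def FewU (p q : ℕ) : Prop := ∀ C : ℝ, 0 < C → ∃ δ K : ℝ, 0 < δ ∧ 0 < K ∧
  ∀ N z : ℕ, 1 ≤ N → ¬ q ∣ z →
  ((#{n ∈ range N | ∃ b < q,
    ((Nat.digits q (z * p ^ n)).count b : ℝ) ≤ C * Real.log N} : ℕ) : ℝ) ≤
    K * (N : ℝ) ^ (1 - δ)

end Pool.Agent.H46R3.DG
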