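import Mathlib
import Pool.Agent.H46R3.DG.Stmts2

set_option autoImplicit false

namespace Pool.Agent.H46R3.DG.GW0

open Finset

/-- the number of `j` with `r + j L < l` -/
def lr (l L r : ℕ) : ℕ := (l - r + L - 1) / L

theorem lt_lr (l L r j : ℕ) (hL : 1 ≤ L) : j < lr l L r ↔ r + j * L < l := by
  unfold lr
  rw [← Nat.succ_le_iff, Nat.le_div_iff_mul_le (by omega), Nat.succ_mul]
  omega

theorem split (l L : ℕ) (hL : 1 ≤ L) (P : ℕ → Prop) [DecidablePred P] :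
    #{i ∈ range l | P i} = ∑ r ∈ range L, #{j ∈ range (lr l L r) | P (r + j * L)} := by
  rw [card_eq_sum_card_fiberwise (f := fun i => i % L) (t := range L)
    (fun i _ => by simpa using Nat.mod_lt _ (by omega))]
  refine sum_congr rfl fun r hr => ?_
  have hr' : r < L := mem_range.1 hr
  refine card_nbij' (fun i => i / L) (fun j => r + j * L) ?_ ?_ ?_ ?_
  · intro i hi
    simp only [coe_filter, mem_filter, mem_range, Set.mem_ofPred_eq] at hi ⊢
    obtain ⟨⟨h1, h2⟩, h3⟩ := hi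
    have h4 : r + i / L * L = i := by
      rw [← h3, mul_comm]; exact Nat.mod_add_div i L
    rw [lt_lr l L r _ hL, h4]
    exact ⟨h1, h2⟩
  · intro j hj
    simp only [coe_filter, mem_filter, mem_range, Set.mem_ofPred_eq] at hj ⊢
    rw [lt_lr l L r _ hL] at hj
    refine ⟨hj, ?_⟩
    rw [Nat.add_mul_mod_self_right, Nat.mod_eq_of_lt hr']
  · intro i hi
    simp only [coe_filter, mem_filter, mem_range, Set.mem_ofPred_eq] at hi
    have h4 : r + i / L * L = i := by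
      rw [← hi.2, mul_comm]; exact Nat.mod_add_div i L
    exact h4
  · intro j hj
    show (r + j * L) / L = j
    rw [Nat.add_mul_div_right _ _ (by omega), Nat.div_eq_of_lt hr', zero_add]

theorem cw_eq (q L w l v : ℕ) (hL : 1 ≤ L) :
    cw q L w l v = ∑ r ∈ range L, cnt (q ^ L) (w / q ^ r) (lr l L r) v := by
  unfold cw cnt
  rw [split l L hL]
  refine sum_congr rfl fun r _ => ?_
  congr 1
  ext j
  simp only [mem_filter, mem_range]
  rw [Nat.div_div_eq_div_mul, ← pow_mul, ← pow_add, mul_comm L j]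

theorem sum_lr (l L : ℕ) (hL : 1 ≤ L) : ∑ r ∈ range L, lr l L r = l := by
  have h := split l L hL (fun _ => True)
  simp only [filter_true, card_range] at h
  exact h.symm

theorem taskGW : TaskGW := by
  intro hG q L ε hq hL hε
  have hq1 : (1 : ℝ) < q := by exact_mod_cast hq
  have hq0 : (0 : ℝ) < q := by linarith
  have hQ : 2 ≤ q ^ L := hq.trans (Nat.le_self_pow (by omega) q)
  obtain ⟨η, K, hη, hK, hGG⟩ := hG (q ^ L) ε hQ hε
  refine ⟨min η 1, L * (K * (q : ℝ) ^ (2 * L)), lt_min hη one_pos, by positivity, ?_⟩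
  intro l v hv
  -- the inclusion
  have hsub : {w ∈ range (q ^ l) | ε * l < |(cw q L w l v : ℝ) - (l : ℝ) / (q : ℝ) ^ L|} ⊆
      (range L).biUnion fun r => {w ∈ range (q ^ l) | ε * (lr l L r : ℕ) <
        |(cnt (q ^ L) (w / q ^ r) (lr l L r) v : ℝ) - ((lr l L r : ℕ) : ℝ) / ((q ^ L : ℕ) : ℝ)|} := by
    intro w hw
    rw [mem_filter] at hw
    rw [mem_biUnion]
    by_contra hcon
    push Not at hcon
    have h1 : ∀ r ∈ range L, |(cnt (q ^ L) (w / q ^ r) (lr l L r) v : ℝ) -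
        ((lr l L r : ℕ) : ℝ) / ((q ^ L : ℕ) : ℝ)| ≤ ε * (lr l L r : ℕ) := by
      intro r hr
      have h2 := hcon r hr
      rw [mem_filter, not_and] at h2
      exact not_lt.1 (h2 hw.1)
    have h2 : (cw q L w l v : ℝ) - (l : ℝ) / (q : ℝ) ^ L =
        ∑ r ∈ range L, ((cnt (q ^ L) (w / q ^ r) (lr l L r) v : ℝ) -
          ((lr l L r : ℕ) : ℝ) / ((q ^ L : ℕ) : ℝ)) := by
      rw [sum_sub_distrib, ← sum_div, cw_eq q L w l v hL]
      have h3 : (∑ r ∈ range L, ((lr l L r : ℕ) : ℝ)) = l := by exact_mod_cast sum_lr l L hL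
      rw [h3]
      push_cast
      rfl
    have h3 : |(cw q L w l v : ℝ) - (l : ℝ) / (q : ℝ) ^ L| ≤ ε * l := by
      rw [h2]
      refine (abs_sum_le_sum_abs _ _).trans ((sum_le_sum h1).trans ?_)
      rw [← mul_sum]
      have h3 : (∑ r ∈ range L, ((lr l L r : ℕ) : ℝ)) = l := by exact_mod_cast sum_lr l L hL
      rw [h3]
    linarith [hw.2]
  -- each class
  have hcl : ∀ r ∈ range L, ((#{w ∈ range (q ^ l) | ε * (lr l L r : ℕ) <
        |(cnt (q ^ L) (w / q ^ r) (lr l L r) v : ℝ) - ((lr l L r : ℕ) : ℝ) / ((q ^ L : ℕ) : ℝ)|} : ℕ)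
        : ℝ) ≤ K * (q : ℝ) ^ (2 * L) * (q : ℝ) ^ ((1 - min η 1) * (l : ℝ)) := by
    intro r hr
    have hr' : r < L := mem_range.1 hr
    have hlr1 : l ≤ r + L * lr l L r := by
      by_contra hcon
      rw [not_le] at hcon
      have := (lt_lr l L r (lr l L r) hL).2 (by rw [mul_comm] at hcon; exact hcon)
      exact lt_irrefl _ this
    have hlr2 : L * lr l L r ≤ l + L := by
      unfold lr
      have := Nat.mul_div_le (l - r + L - 1) L
      omega
    have h1 : #{w ∈ range (q ^ l) | ε * (lr l L r : ℕ) <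
        |(cnt (q ^ L) (w / q ^ r) (lr l L r) v : ℝ) - ((lr l L r : ℕ) : ℝ) / ((q ^ L : ℕ) : ℝ)|} ≤
        #{w ∈ range ((q ^ L) ^ lr l L r) | ε * (lr l L r : ℕ) <
        |(cnt (q ^ L) w (lr l L r) v : ℝ) - ((lr l L r : ℕ) : ℝ) / ((q ^ L : ℕ) : ℝ)|} * q ^ r := by
      have hprod : ∀ S : Finset ℕ, #S * q ^ r = #(S ×ˢ range (q ^ r)) := fun S => by
        rw [card_product, card_range]
      rw [hprod]
      apply card_le_card_of_injOn (fun w => (w / q ^ r, w % q ^ r))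
      · intro w hw
        simp only [coe_filter, mem_range, Set.mem_ofPred_eq] at hw
        simp only [coe_product, Set.mem_prod, coe_filter, mem_range, Set.mem_ofPred_eq, coe_range,
          Set.mem_Iio]
        refine ⟨⟨?_, hw.2⟩, Nat.mod_lt _ (pow_pos (by omega) _)⟩
        apply Nat.div_lt_of_lt_mul
        rw [← pow_mul, ← pow_add]
        exact lt_of_lt_of_le hw.1 (Nat.pow_le_pow_right (by omega) hlr1)
      · intro a _ b _ hab
        simp only [Prod.mk.injEq] at hab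
        rw [← Nat.div_add_mod a (q ^ r), ← Nat.div_add_mod b (q ^ r), hab.1, hab.2]
    have h2 := hGG (lr l L r) v hv
    have h3 : ((#{w ∈ range (q ^ l) | ε * (lr l L r : ℕ) <
        |(cnt (q ^ L) (w / q ^ r) (lr l L r) v : ℝ) - ((lr l L r : ℕ) : ℝ) / ((q ^ L : ℕ) : ℝ)|} : ℕ)
        : ℝ) ≤ (K * ((q ^ L : ℕ) : ℝ) ^ ((1 - η) * ((lr l L r : ℕ) : ℝ))) * (q : ℝ) ^ r := by
      have h4 : ((#{w ∈ range (q ^ l) | ε * (lr l L r : ℕ) <
        |(cnt (q ^ L) (w / q ^ r) (lr l L r) v : ℝ) - ((lr l L r : ℕ) : ℝ) / ((q ^ L : ℕ) : ℝ)|} : ℕ)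
        : ℝ) ≤ ((#{w ∈ range ((q ^ L) ^ lr l L r) | ε * (lr l L r : ℕ) <
        |(cnt (q ^ L) w (lr l L r) v : ℝ) - ((lr l L r : ℕ) : ℝ) / ((q ^ L : ℕ) : ℝ)|} : ℕ) : ℝ) *
          (q : ℝ) ^ r := by exact_mod_cast h1
      exact h4.trans (mul_le_mul_of_nonneg_right h2 (by positivity))
    refine h3.trans ?_
    have h5 : ((q ^ L : ℕ) : ℝ) ^ ((1 - η) * ((lr l L r : ℕ) : ℝ)) ≤
        (q : ℝ) ^ ((1 - min η 1) * (l : ℝ)) * (q : ℝ) ^ L := by
      have h6 : ((q ^ L : ℕ) : ℝ) = (q : ℝ) ^ (L : ℝ) := by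
        rw [Real.rpow_natCast]; push_cast; rfl
      rw [h6, ← Real.rpow_mul hq0.le, ← Real.rpow_natCast (q : ℝ) L, ← Real.rpow_add hq0]
      apply Real.rpow_le_rpow_of_exponent_le hq1.le
      have h7 : (L : ℝ) * ((lr l L r : ℕ) : ℝ) ≤ l + L := by exact_mod_cast hlr2
      have h8 : 0 ≤ (L : ℝ) * ((lr l L r : ℕ) : ℝ) := by positivity
      have h9 : min η 1 ≤ η := min_le_left _ _
      have h10 : min η 1 ≤ 1 := min_le_right _ _
      have h11 : 0 < min η 1 := lt_min hη one_pos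
      have h12 : (0 : ℝ) ≤ L := Nat.cast_nonneg L
      calc (L : ℝ) * ((1 - η) * ((lr l L r : ℕ) : ℝ)) = (1 - η) * (L * ((lr l L r : ℕ) : ℝ)) := by ring
        _ ≤ (1 - min η 1) * (L * ((lr l L r : ℕ) : ℝ)) :=
            mul_le_mul_of_nonneg_right (by linarith) h8
        _ ≤ (1 - min η 1) * (l + L) := mul_le_mul_of_nonneg_left h7 (by linarith)
        _ = (1 - min η 1) * l + L - min η 1 * L := by ring
        _ ≤ (1 - min η 1) * l + L := by nlinarith
    have h13 : (q : ℝ) ^ r ≤ (q : ℝ) ^ L := pow_le_pow_right₀ hq1.le hr'.le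
    have h14 : (0 : ℝ) ≤ (q : ℝ) ^ ((1 - min η 1) * (l : ℝ)) := by positivity
    calc K * ((q ^ L : ℕ) : ℝ) ^ ((1 - η) * ((lr l L r : ℕ) : ℝ)) * (q : ℝ) ^ r
        ≤ K * ((q : ℝ) ^ ((1 - min η 1) * (l : ℝ)) * (q : ℝ) ^ L) * (q : ℝ) ^ L := by
          apply mul_le_mul (mul_le_mul_of_nonneg_left h5 hK.le) h13 (by positivity) (by positivity)
      _ = K * (q : ℝ) ^ (2 * L) * (q : ℝ) ^ ((1 - min η 1) * (l : ℝ)) := by
          rw [two_mul, pow_add]; ring
  have hcard : ((#{w ∈ range (q ^ l) | ε * l < |(cw q L w l v : ℝ) - (l : ℝ) / (q : ℝ) ^ L|} : ℕ)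
      : ℝ) ≤ ∑ r ∈ range L, ((#{w ∈ range (q ^ l) | ε * (lr l L r : ℕ) <
        |(cnt (q ^ L) (w / q ^ r) (lr l L r) v : ℝ) - ((lr l L r : ℕ) : ℝ) / ((q ^ L : ℕ) : ℝ)|} : ℕ)
        : ℝ) := by
    exact_mod_cast (card_le_card hsub).trans card_biUnion_le
  refine hcard.trans ((sum_le_sum hcl).trans ?_)
  rw [sum_const, card_range, nsmul_eq_mul]
  exact le_of_eq (by ring)

end Pool.Agent.H46R3.DG.GW0
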