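import Mathlib
import Pool.Agent.H46R3.DG.Stmts

set_option autoImplicit false

namespace Pool.Agent.H46R3.DG.A0

open Finset
open Pool.Agent.H373R2.NB (Ph)

theorem taskA : TaskA := by
  intro d
  induction d with
  | zero =>
    intro c n
    simp
  | succ d ih =>
    intro c h
    obtain ⟨c', hc'⟩ : ∃ c' : ℕ → ℝ, c' = fun j => ∑ i ∈ Ico (j + 1) (d + 2),
        c i * (h.choose (i - j) : ℝ) := ⟨_, rfl⟩
    have h1 : c' d = h * c (d + 1) := by
      rw [hc']
      have : Ico (d + 1) (d + 2) = {d + 1} := Nat.Ico_succ_singleton (d + 1)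
      simp only [this, sum_singleton, Nat.add_sub_cancel_left, Nat.choose_one_right]
      ring
    have h2 := ih c'
    rw [h1] at h2
    have h3 : (fun n : ℕ => ∑ i ∈ range (d + 1), c' i * (n.choose i : ℝ)) =
        fun n : ℕ => (∑ i ∈ range (d + 1 + 1), c i * ((n + h).choose i : ℝ)) -
          ∑ i ∈ range (d + 1 + 1), c i * (n.choose i : ℝ) := by
      funext n
      have h4 : ∀ i ∈ range (d + 1 + 1), c i * ((n + h).choose i : ℝ) - c i * (n.choose i : ℝ) =
          ∑ j ∈ range i, c i * (h.choose (i - j) : ℝ) * (n.choose j : ℝ) := by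
        intro i _
        have h5 : ((n + h).choose i : ℝ) =
            ∑ j ∈ range (i + 1), (n.choose j : ℝ) * (h.choose (i - j) : ℝ) := by
          rw [Nat.add_choose_eq, Nat.sum_antidiagonal_eq_sum_range_succ
            (fun a b => n.choose a * h.choose b)]
          push_cast
          rfl
        rw [h5, sum_range_succ, Nat.sub_self, Nat.choose_zero_right, Nat.cast_one, mul_one, mul_add,
          add_sub_cancel_right, mul_sum]
        exact sum_congr rfl fun j _ => by ring
      rw [← sum_sub_distrib, sum_congr rfl h4, hc']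
      simp only [sum_mul]
      apply sum_comm'
      intro x y
      simp only [mem_range, mem_Ico]
      omega
    rw [h3] at h2
    exact h2

end Pool.Agent.H46R3.DG.A0
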