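import Mathlib
import Pool.Agent.H46R3.DG.Stmts

set_option autoImplicit false

namespace Pool.Agent.H46R3.DG.D0

open Finset
open Pool.Agent.Helper602.MK (ee)
open Pool.Agent.Helper602.MK.N_J5b (norm_ee ee_add_int)
open Pool.Agent.H373R2.NB (Ph IW IW_all)

/-- the phase modulo one -/
theorem phase (q J r d X u n : ℕ) (hq : 0 < q) (hrJ : r ≤ J) :
    ee ((X : ℝ) * (1 + (q : ℝ) ^ J * u) ^ n / (q : ℝ) ^ (d * J + r)) =
      ee (∑ i ∈ range (d + 1), ((X : ℝ) * ((q : ℝ) ^ J * u) ^ i / (q : ℝ) ^ (d * J + r)) *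
        (n.choose i : ℝ)) := by
  have hq0 : (0 : ℝ) < q := by exact_mod_cast hq
  obtain ⟨e, he⟩ := Nat.exists_eq_add_of_le hrJ
  have h1 : (1 + (q : ℝ) ^ J * u) ^ n =
      ∑ i ∈ range (d + 1 + (n + 1)), ((q : ℝ) ^ J * u) ^ i * (n.choose i : ℝ) := by
    rw [add_comm (1 : ℝ), add_pow]
    have h2 : range (n + 1) ⊆ range (d + 1 + (n + 1)) :=
      range_subset_range.2 (by omega)
    rw [← sum_subset h2 (f := fun i => ((q : ℝ) ^ J * u) ^ i * (n.choose i : ℝ))]
    · exact sum_congr rfl fun i _ => by rw [one_pow, mul_one]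
    · intro i _ hi
      rw [mem_range, not_lt] at hi
      rw [Nat.choose_eq_zero_of_lt (by omega)]
      simp
  rw [h1, sum_range_add, mul_add, add_div]
  have h3 : (X : ℝ) * (∑ x ∈ range (n + 1), ((q : ℝ) ^ J * u) ^ (d + 1 + x) *
      (n.choose (d + 1 + x) : ℝ)) / (q : ℝ) ^ (d * J + r) =
      ((X * ∑ x ∈ range (n + 1), (q ^ (e + J * x) * u ^ (d + 1 + x)) * n.choose (d + 1 + x) : ℕ) : ℤ)
      := by
    push_cast
    rw [mul_div_assoc, sum_div]
    congr 1
    refine sum_congr rfl fun x _ => ?_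
    rw [div_eq_iff (by positivity), mul_pow, ← pow_mul]
    have h4 : J * (d + 1 + x) = (e + J * x) + (d * J + r) := by
      have : J * (d + 1 + x) = d * J + J + J * x := by ring
      omega
    rw [h4, pow_add]
    ring
  rw [h3, ee_add_int, mul_sum, sum_div]
  congr 1
  exact sum_congr rfl fun i _ => by ring

theorem taskD (hA : TaskA) : TaskD := by
  intro d hd
  obtain ⟨c, m, hc, hI⟩ := IW_all d hd
  refine ⟨c, m, hc, ?_⟩
  intro q J r M X u v hq hX hu hrJ hM hv h1 h2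
  by_contra hcon
  push Not at hcon
  have hq0 : (0 : ℝ) < q := by exact_mod_cast hq.pos
  have hv0 : 0 < v := by linarith
  have hM0 : (0 : ℝ) < M := by exact_mod_cast hM
  simp only [phase q J r d X u _ hq.pos hrJ] at hcon
  have hPh := hA d (fun i => (X : ℝ) * ((q : ℝ) ^ J * u) ^ i / (q : ℝ) ^ (d * J + r))
  rw [div_lt_iff₀ hv0] at hcon
  obtain ⟨q', hq'1, hq'2, a, ha⟩ := hI M v _ _ hM hv hPh (by rw [mul_comm]; exact hcon.le)
  have hα : (X : ℝ) * ((q : ℝ) ^ J * u) ^ d / (q : ℝ) ^ (d * J + r) = (X * u ^ d : ℝ) / (q : ℝ) ^ r := by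
    rw [div_eq_div_iff (by positivity) (by positivity), mul_pow, ← pow_mul, pow_add, mul_comm J d]
    ring
  simp only [hα] at ha
  have hqr : (0 : ℝ) < (q : ℝ) ^ r := by positivity
  -- the integer
  have hint : (1 : ℝ) ≤ |((q' * (X * u ^ d) : ℤ) - a * (q ^ r : ℤ) : ℤ)| := by
    have hne : ((q' * (X * u ^ d) : ℤ) - a * (q ^ r : ℤ) : ℤ) ≠ 0 := by
      intro h0
      have h3 : ((q ^ r : ℕ) : ℤ) ∣ ((q' * (X * u ^ d) : ℕ) : ℤ) :=
        ⟨a, by push_cast; linarith⟩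
      have h4 : q ^ r ∣ q' * (X * u ^ d) := by exact_mod_cast h3
      have h5 : Nat.Coprime (q ^ r) (X * u ^ d) := by
        apply Nat.Coprime.pow_left
        apply Nat.Coprime.mul_right
        · exact (Nat.Prime.coprime_iff_not_dvd hq).2 hX
        · exact Nat.Coprime.pow_right _ ((Nat.Prime.coprime_iff_not_dvd hq).2 hu)
      have h6 : q ^ r ∣ q' := h5.dvd_of_dvd_mul_right h4
      have h7 : q ^ r ≤ q' := Nat.le_of_dvd (by omega) h6
      have h8 : (q : ℝ) ^ r ≤ q' := by exact_mod_cast h7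
      linarith
    exact_mod_cast Int.one_le_abs hne
  have h3 : 1 / (q : ℝ) ^ r ≤ |(q' : ℝ) * ((X * u ^ d : ℝ) / (q : ℝ) ^ r) - a| := by
    have h4 : (q' : ℝ) * ((X * u ^ d : ℝ) / (q : ℝ) ^ r) - a =
        ((((q' * (X * u ^ d) : ℤ) - a * (q ^ r : ℤ) : ℤ)) : ℝ) / (q : ℝ) ^ r := by
      push_cast
      field_simp
    rw [h4, abs_div, abs_of_pos hqr]
    exact div_le_div_of_nonneg_right (by exact_mod_cast hint) hqr.le
  have h4 := h3.trans ha
  rw [div_le_div_iff₀ hqr (by positivity), one_mul] at h4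
  linarith

end Pool.Agent.H46R3.DG.D0
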