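import Mathlib
import Pool.Agent.H46R3.DG.Stmts

set_option autoImplicit false

namespace Pool.Agent.H46R3.DG

open Finset
open Pool.Agent.Helper602.MK (ee)
open Pool.Agent.Helper602.MK.N_J5b (norm_ee)

theorem sum_range_mul_split (f : ℕ → ℂ) (L M : ℕ) :
    ∑ n ∈ range (L * M), f n = ∑ n ∈ range L, ∑ i ∈ range M, f (n + L * i) := by
  rw [sum_comm]
  induction M with
  | zero => simp
  | succ M ih =>
    rw [Nat.mul_succ, sum_range_add, ih, sum_range_succ]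
    congr 1
    exact sum_congr rfl fun x _ => by rw [add_comm]

theorem core {p q T s : ℕ} (h : Dat p q T s) (d c m : ℕ)
    (hW : ∀ (q J r M X u : ℕ) (v : ℝ), q.Prime →
      ¬ q ∣ X → ¬ q ∣ u → r ≤ J → 1 ≤ M → 1 ≤ v → (c : ℝ) * v ^ m < (q : ℝ) ^ r →
      (c : ℝ) * v ^ m * (q : ℝ) ^ r < (M : ℝ) ^ d →
      ‖∑ n ∈ range M, ee ((X : ℝ) * (1 + (q : ℝ) ^ J * u) ^ n / (q : ℝ) ^ (d * J + r))‖ ≤ M / v)
    (k a N J r M : ℕ) (v : ℝ) (hk : k = d * J + r) (hrJ : r ≤ J) (hsJ : s ≤ J) (ha : ¬ q ∣ a)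
    (hv : 1 ≤ v) (hM : M = N / (T * q ^ (J - s))) (hM1 : 1 ≤ M)
    (h1 : (c : ℝ) * v ^ m < (q : ℝ) ^ r)
    (h2 : (c : ℝ) * v ^ m * (q : ℝ) ^ r < (M : ℝ) ^ d) :
    ‖∑ n ∈ range N, ee ((a : ℝ) * (p : ℝ) ^ n / (q : ℝ) ^ k)‖ ≤
      N / v + ((T * q ^ (J - s) : ℕ) : ℝ) := by
  obtain ⟨u, hu, hpu⟩ := h.lte (J - s)
  rw [Nat.sub_add_cancel hsJ] at hpu
  set L := T * q ^ (J - s) with hL
  have hLpos : 0 < L := Nat.mul_pos h.hT (pow_pos h.hq.pos _)
  have hqp : ¬ q ∣ p := fun hh => h.hpq ((Nat.prime_dvd_prime_iff_eq h.hq h.hp).1 hh).symm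
  have hv0 : 0 < v := by linarith
  have hLM : L * M ≤ N := by rw [hM]; exact Nat.mul_div_le N L
  have hNLM : N < L * M + L := by
    rw [hM]
    have := Nat.lt_mul_div_succ N hLpos
    rw [Nat.mul_succ] at this
    exact this
  obtain ⟨R, hR⟩ := Nat.exists_eq_add_of_le hLM
  have hRL : R < L := by omega
  rw [hR, sum_range_add]
  refine (norm_add_le _ _).trans ?_
  have e1 : ‖∑ n ∈ range (L * M), ee ((a : ℝ) * (p : ℝ) ^ n / (q : ℝ) ^ k)‖ ≤ L * (M / v) := by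
    rw [sum_range_mul_split]
    refine (norm_sum_le _ _).trans ?_
    refine (sum_le_sum (g := fun _ => (M : ℝ) / v) fun n0 _ => ?_).trans ?_
    · have h3 := hW q J r M (a * p ^ n0) u v h.hq ?_ hu hrJ hM1 hv h1 h2
      · refine le_of_eq_of_le ?_ h3
        congr 1
        refine sum_congr rfl fun i _ => ?_
        congr 1
        have h4 : (p : ℝ) ^ L = 1 + (q : ℝ) ^ J * u := by exact_mod_cast hpu
        rw [pow_add, pow_mul, h4, hk]
        push_cast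
        ring
      · intro hh
        rcases (Nat.Prime.dvd_mul h.hq).1 hh with h5 | h5
        · exact ha h5
        · exact hqp (h.hq.dvd_of_dvd_pow h5)
    · rw [sum_const, card_range, nsmul_eq_mul]
  have e2 : ‖∑ n ∈ range R, ee ((a : ℝ) * (p : ℝ) ^ (L * M + n) / (q : ℝ) ^ k)‖ ≤ L := by
    refine (norm_sum_le _ _).trans ?_
    refine (sum_le_sum (g := fun _ => (1 : ℝ)) fun n _ => (norm_ee _).le).trans ?_
    rw [sum_const, card_range, nsmul_eq_mul, mul_one]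
    exact_mod_cast hRL.le
  have e3 : (L : ℝ) * (M / v) ≤ ((L * M + R : ℕ) : ℝ) / v := by
    rw [← mul_div_assoc]
    apply div_le_div_of_nonneg_right _ hv0.le
    push_cast
    linarith [(Nat.cast_nonneg R : (0 : ℝ) ≤ R)]
  linarith

theorem taskE (hC : TaskC) (hD : TaskD) : TaskE := by
  intro p q T s h C hCpos
  have hq2 : 2 ≤ q := h.hq.two_le
  have hq1 : (1 : ℝ) < q := by exact_mod_cast hq2
  have hq0 : (0 : ℝ) < q := by linarith
  obtain ⟨g, hg⟩ : ∃ g : ℝ, g = Real.log q := ⟨_, rfl⟩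
  have hg0 : 0 < g := by rw [hg]; exact Real.log_pos hq1
  obtain ⟨d, hd⟩ : ∃ d : ℕ, d = ⌈2 * C * g⌉₊ + 1 := ⟨_, rfl⟩
  have hd1 : 1 ≤ d := by omega
  have hdC : 4 * C * g ≤ 2 * d + 1 := by
    have := Nat.le_ceil (2 * C * g)
    rw [hd]; push_cast; linarith
  obtain ⟨c, m, hc, hW⟩ := hD d hd1
  have hd1' : (1 : ℝ) ≤ d := by exact_mod_cast hd1
  obtain ⟨δ, hδ⟩ : ∃ δ : ℝ, δ = 1 / ((m + 1) * (4 * d + 12)) := ⟨_, rfl⟩
  have hm0 : (0 : ℝ) ≤ m := Nat.cast_nonneg m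
  have hδ0 : 0 < δ := by rw [hδ]; positivity
  have hmδ : m * δ ≤ 1 / (4 * d + 12) := by
    rw [hδ, mul_one_div, div_le_div_iff₀ (by positivity) (by positivity)]
    nlinarith
  have hδ2 : δ ≤ 1 / 2 := by
    rw [hδ, div_le_div_iff₀ (by positivity) (by norm_num)]
    nlinarith
  have hc1 : (1 : ℝ) ≤ c := by exact_mod_cast hc
  have hT1 : (1 : ℝ) ≤ T := by exact_mod_cast h.hT
  have hs1 : (1 : ℝ) ≤ s := by exact_mod_cast h.hs
  -- the threshold
  obtain ⟨ℓ₀, hℓ₀⟩ : ∃ ℓ₀ : ℝ, ∀ ℓ : ℝ, ℓ₀ ≤ ℓ → 4 * g * d ^ 2 ≤ ℓ ∧ (2 * d + 1) * s * g ≤ ℓ ∧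
      Real.log c + 2 * d ^ 2 * g / (2 * d + 1) < ℓ * (1 / (4 * d + 2) - 1 / (4 * d + 12)) ∧
      Real.log c < ℓ / 48 ∧ 6 * Real.log (2 * T * q) ≤ ℓ ∧ 0 ≤ ℓ := by
    have hκ : (0 : ℝ) < 1 / (4 * d + 2) - 1 / (4 * d + 12) := by
      rw [sub_pos]
      apply one_div_lt_one_div_of_lt (by positivity)
      linarith
    have hev : ∀ᶠ ℓ : ℝ in Filter.atTop, 4 * g * d ^ 2 ≤ ℓ ∧ (2 * d + 1) * s * g ≤ ℓ ∧
      Real.log c + 2 * d ^ 2 * g / (2 * d + 1) < ℓ * (1 / (4 * d + 2) - 1 / (4 * d + 12)) ∧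
      Real.log c < ℓ / 48 ∧ 6 * Real.log (2 * T * q) ≤ ℓ ∧ 0 ≤ ℓ := by
      refine (Filter.eventually_ge_atTop _).and ((Filter.eventually_ge_atTop _).and
        (Filter.Eventually.and ?_ (Filter.Eventually.and ?_
          ((Filter.eventually_ge_atTop _).and (Filter.eventually_ge_atTop _)))))
      · filter_upwards [Filter.eventually_gt_atTop
          ((Real.log c + 2 * d ^ 2 * g / (2 * d + 1)) / (1 / (4 * d + 2) - 1 / (4 * d + 12)))]
          with ℓ hℓ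
        rwa [div_lt_iff₀ hκ] at hℓ
      · filter_upwards [Filter.eventually_gt_atTop (48 * Real.log c)] with ℓ hℓ
        linarith
    exact Filter.eventually_atTop.1 hev
  refine ⟨δ, 1 + T * q + Real.exp ℓ₀, hδ0, by positivity, ?_⟩
  intro N k a hN hk hkC ha
  have hN1 : (1 : ℝ) ≤ N := by exact_mod_cast hN
  have hN0 : (0 : ℝ) < N := by linarith
  obtain ⟨ℓ, hℓ⟩ : ∃ ℓ : ℝ, ℓ = Real.log N := ⟨_, rfl⟩
  rw [← hℓ] at hkC
  have hℓ0 : 0 ≤ ℓ := by rw [hℓ]; exact Real.log_nonneg hN1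
  have hNexp : (N : ℝ) = Real.exp ℓ := by rw [hℓ]; exact (Real.exp_log hN0).symm
  have hpow : ∀ y : ℝ, (N : ℝ) ^ y = Real.exp (y * ℓ) := by
    intro y
    rw [Real.rpow_def_of_pos hN0, mul_comm, hℓ]
  have hqpow : ∀ j : ℕ, (q : ℝ) ^ j = Real.exp (j * g) := by
    intro j
    rw [Real.exp_nat_mul, hg, Real.exp_log hq0]
  have hNδ1 : 1 ≤ (N : ℝ) ^ (1 - δ) := by
    rw [hpow]
    apply Real.one_le_exp
    exact mul_nonneg (by linarith) hℓ0
  have hhalf : Real.exp (ℓ / 2) ≤ (N : ℝ) ^ (1 - δ) := by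
    rw [hpow]
    apply Real.exp_le_exp.2
    nlinarith
  have hNδ0 : 0 ≤ (N : ℝ) ^ (1 - δ) := by linarith
  have hTq : 0 ≤ (T : ℝ) * q := by positivity
  rcases lt_or_ge ℓ ℓ₀ with hsm | hbig
  · -- small `N`
    have h1 : ‖∑ n ∈ range N, ee ((a : ℝ) * (p : ℝ) ^ n / (q : ℝ) ^ k)‖ ≤ N := by
      refine (norm_sum_le _ _).trans ?_
      refine (sum_le_sum (g := fun _ => (1 : ℝ)) fun n _ => (norm_ee _).le).trans ?_
      rw [sum_const, card_range, nsmul_eq_mul, mul_one]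
    have h2 : (N : ℝ) ≤ Real.exp ℓ₀ := by
      rw [hNexp]; exact Real.exp_le_exp.2 hsm.le
    have h3 : Real.exp ℓ₀ ≤ (1 + T * q + Real.exp ℓ₀) * (N : ℝ) ^ (1 - δ) := by
      nlinarith [Real.exp_pos ℓ₀]
    linarith
  obtain ⟨t1, t2, t3, t4, t5, _⟩ := hℓ₀ ℓ hbig
  rcases le_or_gt (2 * k * g) ℓ with hcase | hcase
  · -- small modulus
    have h1 := hC p q T s h k a N hk ha
    have h2 : (q : ℝ) ^ k ≤ Real.exp (ℓ / 2) := by
      rw [hqpow]; apply Real.exp_le_exp.2; linarith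
    have h3 : (T : ℝ) * (q : ℝ) ^ k ≤ T * (N : ℝ) ^ (1 - δ) :=
      mul_le_mul_of_nonneg_left (h2.trans hhalf) (by linarith)
    have h4 : (T : ℝ) * (N : ℝ) ^ (1 - δ) ≤ (1 + T * q + Real.exp ℓ₀) * (N : ℝ) ^ (1 - δ) := by
      apply mul_le_mul_of_nonneg_right _ hNδ0
      nlinarith [Real.exp_pos ℓ₀]
    linarith
  -- large modulus
  have hk0 : (0 : ℝ) ≤ k := Nat.cast_nonneg k
  have hkd : (2 * d ^ 2 : ℝ) < k := by
    by_contra hcon
    rw [not_lt] at hcon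
    have : 2 * k * g ≤ 2 * (2 * d ^ 2) * g := by
      apply mul_le_mul_of_nonneg_right _ hg0.le
      linarith
    linarith
  have hks : ((2 * d + 1) * s : ℝ) < 2 * k := by
    by_contra hcon
    rw [not_lt] at hcon
    have : 2 * k * g ≤ (2 * d + 1) * s * g := mul_le_mul_of_nonneg_right hcon hg0.le
    linarith
  have hkd' : 2 * d ^ 2 < k := by exact_mod_cast hkd
  have hks' : (2 * d + 1) * s < 2 * k := by exact_mod_cast hks
  obtain ⟨J, hJ⟩ : ∃ J : ℕ, J = (2 * k + 2 * d) / (2 * d + 1) := ⟨_, rfl⟩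
  have hJ1 : (2 * d + 1) * J ≤ 2 * k + 2 * d := by rw [hJ]; exact Nat.mul_div_le _ _
  have hJ2 : 2 * k ≤ (2 * d + 1) * J := by
    have := Nat.lt_mul_div_succ (2 * k + 2 * d) (show 0 < 2 * d + 1 by omega)
    rw [← hJ] at this
    have h9 : (2 * d + 1) * (J + 1) = (2 * d + 1) * J + (2 * d + 1) := by ring
    omega
  have hsJ : s ≤ J := by
    by_contra hcon
    rw [not_le] at hcon
    have : (2 * d + 1) * J ≤ (2 * d + 1) * s := Nat.mul_le_mul_left _ hcon.le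
    omega
  have hdJ : d * J ≤ k := by
    have h1 : (2 * d + 1) * (d * J) ≤ (2 * d + 1) * k := by
      have h2 : (2 * d + 1) * (d * J) = d * ((2 * d + 1) * J) := by ring
      have h3 : d * ((2 * d + 1) * J) ≤ d * (2 * k + 2 * d) := Nat.mul_le_mul_left _ hJ1
      have h4 : d * (2 * k + 2 * d) = 2 * d * k + 2 * d ^ 2 := by ring
      have h5 : (2 * d + 1) * k = 2 * d * k + k := by ring
      omega
    exact Nat.le_of_mul_le_mul_left h1 (by omega)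
  obtain ⟨r, hr⟩ := Nat.exists_eq_add_of_le hdJ
  have hrJ : r ≤ J := by
    have h1 : (2 * d + 1) * k ≤ (2 * d + 1) * ((d + 1) * J) := by
      have h2 : (2 * d + 1) * ((d + 1) * J) = (d + 1) * ((2 * d + 1) * J) := by ring
      have h3 : (d + 1) * (2 * k) ≤ (d + 1) * ((2 * d + 1) * J) := Nat.mul_le_mul_left _ hJ2
      have h4 : (d + 1) * (2 * k) = (2 * d + 1) * k + k := by ring
      omega
    have h2 := Nat.le_of_mul_le_mul_left h1 (by omega)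
    have h3 : (d + 1) * J = d * J + J := by ring
    omega
  -- real estimates
  have hJ1r : (2 * d + 1) * (J : ℝ) ≤ 2 * k + 2 * d := by exact_mod_cast hJ1
  have hJ2r : 2 * (k : ℝ) ≤ (2 * d + 1) * J := by exact_mod_cast hJ2
  have hrr : (k : ℝ) = d * J + r := by exact_mod_cast hr
  have h2d : (0 : ℝ) < 2 * d + 1 := by positivity
  have hr1 : (2 * d + 1) * (r : ℝ) ≤ k := by nlinarith
  have hr2 : (k : ℝ) - 2 * d ^ 2 ≤ (2 * d + 1) * r := by nlinarith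
  have hkg : (k : ℝ) * g ≤ C * g * ℓ := by nlinarith
  have hrg1 : (r : ℝ) * g ≤ ℓ / 4 := by
    have h1 : (2 * d + 1) * ((r : ℝ) * g) ≤ (2 * d + 1) * (ℓ / 4) := by
      have h2 : (2 * d + 1) * (r : ℝ) * g ≤ k * g := mul_le_mul_of_nonneg_right hr1 hg0.le
      have h3 : 4 * C * g * ℓ ≤ (2 * d + 1) * ℓ := mul_le_mul_of_nonneg_right hdC hℓ0
      nlinarith
    exact le_of_mul_le_mul_left h1 h2d
  have hrg2 : ℓ / (4 * d + 2) - 2 * d ^ 2 * g / (2 * d + 1) ≤ r * g := by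
    have h1 : (2 * d + 1) * (ℓ / (4 * d + 2) - 2 * d ^ 2 * g / (2 * d + 1)) ≤
        (2 * d + 1) * (r * g) := by
      have h2 : (2 * d + 1) * (ℓ / (4 * d + 2) - 2 * d ^ 2 * g / (2 * d + 1)) =
          ℓ / 2 - 2 * d ^ 2 * g := by
        field_simp
        ring
      rw [h2]
      have h3 : ((k : ℝ) - 2 * d ^ 2) * g ≤ (2 * d + 1) * r * g :=
        mul_le_mul_of_nonneg_right hr2 hg0.le
      nlinarith
    exact le_of_mul_le_mul_left h1 h2d
  have hJg : (J : ℝ) * g ≤ ℓ / 2 + g := by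
    have h1 : (2 * d + 1) * ((J : ℝ) * g) ≤ (2 * d + 1) * (ℓ / 2 + g) := by
      have h2 : (2 * d + 1) * (J : ℝ) * g ≤ (2 * k + 2 * d) * g :=
        mul_le_mul_of_nonneg_right hJ1r hg0.le
      have h3 : 4 * C * g * ℓ ≤ (2 * d + 1) * ℓ := mul_le_mul_of_nonneg_right hdC hℓ0
      nlinarith
    exact le_of_mul_le_mul_left h1 h2d
  obtain ⟨v, hv⟩ : ∃ v : ℝ, v = (N : ℝ) ^ δ := ⟨_, rfl⟩
  have hv' : v = Real.exp (δ * ℓ) := by rw [hv, hpow]
  have hv1 : 1 ≤ v := by rw [hv']; exact Real.one_le_exp (by positivity)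
  have hvm : v ^ m = Real.exp (m * δ * ℓ) := by
    rw [hv', ← Real.exp_nat_mul]; congr 1; ring
  have hcexp : (c : ℝ) = Real.exp (Real.log c) := (Real.exp_log (by linarith)).symm
  have hmδℓ : m * δ * ℓ ≤ ℓ / (4 * d + 12) := by
    have := mul_le_mul_of_nonneg_right hmδ hℓ0
    rw [one_div, inv_mul_eq_div] at this
    exact this
  have h12 : ℓ / (4 * d + 12) ≤ ℓ / 16 := by
    apply div_le_div_of_nonneg_left hℓ0 (by norm_num)
    linarith
  have c1 : (c : ℝ) * v ^ m < (q : ℝ) ^ r := by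
    rw [hqpow, hvm]
    nth_rewrite 1 [hcexp]
    rw [← Real.exp_add]
    apply Real.exp_lt_exp.2
    have e1 : ℓ * (1 / (4 * d + 2) - 1 / (4 * d + 12)) = ℓ / (4 * d + 2) - ℓ / (4 * d + 12) := by
      ring
    rw [e1] at t3
    linarith
  set L := T * q ^ (J - s) with hL
  have hLr : (L : ℝ) ≤ T * q * Real.exp (ℓ / 2) := by
    have h1 : (L : ℝ) ≤ T * (q : ℝ) ^ J := by
      rw [hL]; push_cast
      apply mul_le_mul_of_nonneg_left _ (by linarith)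
      exact pow_le_pow_right₀ hq1.le (Nat.sub_le _ _)
    have h2 : (q : ℝ) ^ J ≤ q * Real.exp (ℓ / 2) := by
      rw [hqpow]
      calc Real.exp (J * g) ≤ Real.exp (ℓ / 2 + g) := Real.exp_le_exp.2 hJg
        _ = q * Real.exp (ℓ / 2) := by rw [Real.exp_add, hg, Real.exp_log hq0]; ring
    nlinarith
  obtain ⟨M, hM⟩ : ∃ M : ℕ, M = N / L := ⟨_, rfl⟩
  have hLpos : 0 < L := Nat.mul_pos h.hT (pow_pos h.hq.pos _)
  have hLpos' : (0 : ℝ) < L := by exact_mod_cast hLpos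
  have hMbig : Real.exp (ℓ / 3) ≤ M := by
    have h1 : (N : ℝ) < L * (M + 1) := by
      have := Nat.lt_mul_div_succ N hLpos
      rw [← hM] at this
      exact_mod_cast this
    have h2 : 2 * T * q ≤ Real.exp (ℓ / 6) := by
      have h3 : (0 : ℝ) < 2 * T * q := by positivity
      rw [← Real.exp_log h3]
      apply Real.exp_le_exp.2
      linarith
    have h3 : Real.exp ℓ = Real.exp (ℓ / 2) * (Real.exp (ℓ / 3) * Real.exp (ℓ / 6)) := by
      rw [← Real.exp_add, ← Real.exp_add]; congr 1; ring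
    have h4 : (1 : ℝ) ≤ Real.exp (ℓ / 3) := Real.one_le_exp (by positivity)
    have h5 : (0 : ℝ) < Real.exp (ℓ / 2) := Real.exp_pos _
    by_contra hcon
    rw [not_le] at hcon
    have h6 : (L : ℝ) * (M + 1) ≤ (T * q * Real.exp (ℓ / 2)) * (2 * Real.exp (ℓ / 3)) := by
      apply mul_le_mul hLr (by linarith) (by positivity) (by positivity)
    have h7 : (T * q * Real.exp (ℓ / 2)) * (2 * Real.exp (ℓ / 3)) ≤ Real.exp ℓ := by
      rw [h3]
      calc (T * q * Real.exp (ℓ / 2)) * (2 * Real.exp (ℓ / 3))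
          = Real.exp (ℓ / 2) * (Real.exp (ℓ / 3) * (2 * T * q)) := by ring
        _ ≤ Real.exp (ℓ / 2) * (Real.exp (ℓ / 3) * Real.exp (ℓ / 6)) := by gcongr
    rw [hNexp] at h1
    linarith
  have hM1 : 1 ≤ M := by
    have : (1 : ℝ) ≤ M := (Real.one_le_exp (by positivity)).trans hMbig
    exact_mod_cast this
  have c2 : (c : ℝ) * v ^ m * (q : ℝ) ^ r < (M : ℝ) ^ d := by
    have h1 : (M : ℝ) ≤ (M : ℝ) ^ d := le_self_pow₀ (by exact_mod_cast hM1) (by omega)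
    refine lt_of_lt_of_le ?_ (hMbig.trans h1)
    rw [hqpow, hvm]
    nth_rewrite 1 [hcexp]
    rw [← Real.exp_add, ← Real.exp_add]
    apply Real.exp_lt_exp.2
    linarith
  have hfin := core h d c m hW k a N J r M v hr hrJ hsJ ha hv1 hM hM1 c1 c2
  have f1 : (N : ℝ) / v = (N : ℝ) ^ (1 - δ) := by
    rw [hv, Real.rpow_sub hN0, Real.rpow_one]
  rw [f1] at hfin
  refine hfin.trans ?_
  have f2 : ((T * q ^ (J - s) : ℕ) : ℝ) ≤ T * q * (N : ℝ) ^ (1 - δ) :=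
    hLr.trans (mul_le_mul_of_nonneg_left hhalf hTq)
  nlinarith [Real.exp_pos ℓ₀]

end Pool.Agent.H46R3.DG
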