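import Pool.Agent.H46R3.DG.Stmts

/-!
Task F1 of project H46-DG: counting with finite Fourier analysis.
-/

set_option autoImplicit false

namespace Pool.Agent.H46R3.DG

open Finset
open Pool.Agent.Helper602.MK (ee)
open Pool.Agent.Helper602.MK.N_J5b (ee_add ee_zero ee_nat_mul ee_int ee_eq_one_iff norm_ee KD KD_far)

namespace F1

/-- a complete geometric sum vanishes -/
theorem geom_zero (L : ℕ) (θ : ℝ) (h1 : ∃ m : ℤ, (L : ℝ) * θ = m) (h2 : ¬ ∃ m : ℤ, θ = m) :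
    ∑ j ∈ range L, ee (j * θ) = 0 := by
  have hne : ee θ ≠ 1 := fun h => h2 ((ee_eq_one_iff θ).1 h)
  have e : ∑ j ∈ range L, ee (j * θ) = ∑ j ∈ range L, ee θ ^ j :=
    sum_congr rfl fun j _ => ee_nat_mul j θ
  rw [e, geom_sum_eq hne, ← ee_nat_mul]
  obtain ⟨m, hm⟩ := h1
  rw [hm, ee_int, sub_self, zero_div]

theorem not_int_of {a : ℤ} {Q : ℕ} (hQ : 0 < Q) (h : ¬ (Q : ℤ) ∣ a) :
    ¬ ∃ m : ℤ, (a : ℝ) / (Q : ℝ) = m := by
  rintro ⟨m, hm⟩
  apply h
  have hQ' : (Q : ℝ) ≠ 0 := by exact_mod_cast hQ.ne'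
  rw [div_eq_iff hQ'] at hm
  refine ⟨m, ?_⟩
  have : (a : ℝ) = ((Q * m : ℤ) : ℝ) := by push_cast; rw [hm]; ring
  exact_mod_cast this

theorem orth {Q : ℕ} (hQ : 0 < Q) (a : ℤ) :
    ∑ h ∈ range Q, ee ((h : ℝ) * ((a : ℝ) / Q)) = if (Q : ℤ) ∣ a then (Q : ℂ) else 0 := by
  have hQ' : (Q : ℝ) ≠ 0 := by exact_mod_cast hQ.ne'
  split_ifs with h
  · obtain ⟨m, rfl⟩ := h
    have : ∀ h ∈ range Q, ee ((h : ℝ) * (((Q * m : ℤ) : ℝ) / Q)) = 1 := by
      intro h _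
      have e : (h : ℝ) * (((Q * m : ℤ) : ℝ) / Q) = ((h * m : ℤ) : ℝ) := by
        push_cast; field_simp
      rw [e, ee_int]
    rw [sum_congr rfl this]
    simp
  · exact geom_zero Q _ ⟨a, by field_simp⟩ (not_int_of hQ h)

/-- the Fourier coefficient -/
noncomputable def F (q t l w h : ℕ) : ℂ :=
  ∑ z ∈ range (q ^ t), ee (-((h : ℝ) * ((w * q ^ t + z : ℕ) : ℝ) / (q : ℝ) ^ (t + l)))

theorem F_zero (q t l w : ℕ) : F q t l w 0 = (q : ℂ) ^ t := by
  unfold F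
  have : ∀ z ∈ range (q ^ t), ee (-(((0 : ℕ) : ℝ) * ((w * q ^ t + z : ℕ) : ℝ) /
      (q : ℝ) ^ (t + l))) = 1 := by
    intro z _
    rw [Nat.cast_zero, zero_mul, zero_div, neg_zero, ee_zero]
  rw [sum_congr rfl this]
  simp

theorem F_eq (q t l w h : ℕ) : F q t l w h =
    ee (-((h : ℝ) * (w * q ^ t) / (q : ℝ) ^ (t + l))) *
      ∑ z ∈ range (q ^ t), ee (z * (-(h : ℝ) / (q : ℝ) ^ (t + l))) := by
  unfold F
  rw [mul_sum]
  refine sum_congr rfl fun z _ => ?_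
  rw [← ee_add]
  congr 1
  push_cast
  ring

theorem F_dvd {q t l w h : ℕ} (hq : 2 ≤ q) (h0 : 0 < h) (hlt : h < q ^ (t + l)) (hd : q ^ l ∣ h) :
    F q t l w h = 0 := by
  rw [F_eq]
  have hq0 : 0 < q := by omega
  have hqR : (q : ℝ) ≠ 0 := by exact_mod_cast hq0.ne'
  obtain ⟨m, rfl⟩ := hd
  rw [geom_zero, mul_zero]
  · refine ⟨-(m : ℤ), ?_⟩
    push_cast
    rw [pow_add]
    field_simp
  · have e : (-(((q ^ l * m : ℕ) : ℝ)) / (q : ℝ) ^ (t + l)) =
        ((-(m : ℤ) : ℤ) : ℝ) / ((q ^ t : ℕ) : ℝ) := by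
      push_cast
      rw [pow_add]
      field_simp
    rw [e]
    apply not_int_of (by positivity)
    rw [dvd_neg, Int.natCast_dvd_natCast]
    have hm0 : 0 < m := Nat.pos_of_mul_pos_left h0
    intro hdvd
    have h3 := Nat.le_of_dvd hm0 hdvd
    have h4 : q ^ (t + l) ≤ q ^ l * m := by
      rw [pow_add, mul_comm]
      exact Nat.mul_le_mul_left _ h3
    omega

theorem F_norm {q t l w h : ℕ} (hq : 2 ≤ q) (h0 : 0 < h) (hlt : h < q ^ (t + l)) :
    ‖F q t l w h‖ ≤ (q : ℝ) ^ (t + l) / 2 * (1 / h + 1 / ((q : ℝ) ^ (t + l) - h)) := by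
  have hq0 : 0 < q := by omega
  have hqR : (0 : ℝ) < q := by exact_mod_cast hq0
  set Q : ℝ := (q : ℝ) ^ (t + l) with hQ
  have hQ0 : 0 < Q := by positivity
  have hh0 : (0 : ℝ) < h := by exact_mod_cast h0
  have hhQ : (h : ℝ) < Q := by
    have : ((h : ℕ) : ℝ) < ((q ^ (t + l) : ℕ) : ℝ) := by exact_mod_cast hlt
    rw [hQ]; push_cast at this; exact this
  rw [F_eq, norm_mul, norm_ee, one_mul]
  set δ : ℝ := min (h / Q) (1 - h / Q) with hδ
  have hδ0 : 0 < δ := by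
    rw [hδ]
    refine lt_min (by positivity) ?_
    rw [sub_pos, div_lt_one hQ0]; exact hhQ
  have hfar : ∀ n : ℤ, δ ≤ |(-(h : ℝ) / Q) - n| := by
    intro n
    rw [neg_div]
    rcases le_or_gt 0 n with hn | hn
    · have h1 : (0 : ℝ) ≤ n := by exact_mod_cast hn
      have h2 : 0 < (h : ℝ) / Q := by positivity
      rw [abs_of_nonpos (by linarith)]
      exact (min_le_left _ _).trans (by linarith)
    · have h1 : (n : ℝ) ≤ -1 := by exact_mod_cast (by omega : n ≤ -1)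
      have h2 : (h : ℝ) / Q < 1 := by rw [div_lt_one hQ0]; exact hhQ
      rw [abs_of_nonneg (by linarith)]
      exact (min_le_right _ _).trans (by linarith)
  have hK := KD_far (q ^ t) (-(h : ℝ) / Q) δ hδ0 hfar
  unfold KD at hK
  have h3 : ‖∑ z ∈ range (q ^ t), ee (z * (-(h : ℝ) / Q))‖ ≤ 1 / (2 * δ) := by
    have h4 : (1 / (2 * δ)) ^ 2 = 1 / (4 * δ ^ 2) := by
      rw [div_pow, one_pow]; congr 1; ring
    rw [← h4] at hK
    exact le_of_sq_le_sq hK (by positivity)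
  refine h3.trans ?_
  have hQh : 0 < Q - h := by linarith
  have hpos : 0 < 1 - (h : ℝ) / Q := by rw [sub_pos, div_lt_one hQ0]; exact hhQ
  rcases min_cases ((h : ℝ) / Q) (1 - h / Q) with ⟨hm, _⟩ | ⟨hm, _⟩
  · rw [hδ, hm]
    have e : 1 / (2 * ((h : ℝ) / Q)) = Q / 2 * (1 / h) := by field_simp
    rw [e, mul_add]
    have : 0 ≤ Q / 2 * (1 / (Q - h)) := by positivity
    linarith
  · rw [hδ, hm]
    have e : 1 / (2 * (1 - (h : ℝ) / Q)) = Q / 2 * (1 / (Q - h)) := by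
      have : (1 - (h : ℝ) / Q) = (Q - h) / Q := by field_simp
      rw [this]; field_simp
    rw [e, mul_add]
    have : 0 ≤ Q / 2 * (1 / (h : ℝ)) := by positivity
    linarith

/-- the Fourier expansion of the indicator -/
theorem expansion {q t l w : ℕ} (hq : 2 ≤ q) (hw : w < q ^ l) (y : ℕ) :
    ∑ h ∈ range (q ^ (t + l)), F q t l w h * ee ((h : ℝ) * (y : ℝ) / (q : ℝ) ^ (t + l)) =
      if y / q ^ t % q ^ l = w then (q : ℂ) ^ (t + l) else 0 := by
  have hq0 : 0 < q := by omega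
  have hqt : 0 < q ^ t := by positivity
  have hql : 0 < q ^ l := by positivity
  have hQ : 0 < q ^ (t + l) := by positivity
  have e1 : ∑ h ∈ range (q ^ (t + l)), F q t l w h * ee ((h : ℝ) * (y : ℝ) / (q : ℝ) ^ (t + l)) =
      ∑ z ∈ range (q ^ t), ∑ h ∈ range (q ^ (t + l)),
        ee ((h : ℝ) * ((((y : ℤ) - (w * q ^ t + z : ℕ) : ℤ) : ℝ) / ((q ^ (t + l) : ℕ) : ℝ))) := by
    rw [sum_comm]
    refine sum_congr rfl fun h _ => ?_
    unfold F
    rw [sum_mul]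
    refine sum_congr rfl fun z _ => ?_
    rw [← ee_add]
    congr 1
    push_cast
    ring
  rw [e1]
  have e2 : ∀ z ∈ range (q ^ t), ∑ h ∈ range (q ^ (t + l)),
      ee ((h : ℝ) * ((((y : ℤ) - (w * q ^ t + z : ℕ) : ℤ) : ℝ) / ((q ^ (t + l) : ℕ) : ℝ))) =
        if y % q ^ (t + l) = w * q ^ t + z then (q : ℂ) ^ (t + l) else 0 := by
    intro z hz
    rw [mem_range] at hz
    rw [orth hQ]
    have hlt : w * q ^ t + z < q ^ (t + l) := by
      have h1 : (w + 1) * q ^ t ≤ q ^ l * q ^ t := Nat.mul_le_mul_right _ hw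
      have h2 : q ^ l * q ^ t = q ^ (t + l) := by rw [pow_add, mul_comm]
      rw [h2, add_mul, one_mul] at h1
      omega
    have hiff : ((q ^ (t + l) : ℕ) : ℤ) ∣ ((y : ℤ) - (w * q ^ t + z : ℕ)) ↔
        y % q ^ (t + l) = w * q ^ t + z := by
      constructor
      · intro hd
        have h1 : (w * q ^ t + z : ℕ) ≡ y [MOD q ^ (t + l)] :=
          (Nat.modEq_iff_dvd).2 hd
        have h2 : (w * q ^ t + z) % q ^ (t + l) = y % q ^ (t + l) := h1
        rw [Nat.mod_eq_of_lt hlt] at h2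
        exact h2.symm
      · intro he
        have h1 : (w * q ^ t + z : ℕ) ≡ y [MOD q ^ (t + l)] := by
          unfold Nat.ModEq
          rw [Nat.mod_eq_of_lt hlt, he]
        exact (Nat.modEq_iff_dvd).1 h1
    by_cases hc : y % q ^ (t + l) = w * q ^ t + z
    · rw [if_pos (hiff.2 hc), if_pos hc]; push_cast; rfl
    · rw [if_neg (fun h => hc (hiff.1 h)), if_neg hc]
  rw [sum_congr rfl e2]
  have hdm : y % q ^ (t + l) / q ^ t = y / q ^ t % q ^ l := by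
    rw [pow_add]; exact Nat.mod_mul_right_div_self _ _ _
  by_cases hc : y / q ^ t % q ^ l = w
  · rw [if_pos hc]
    rw [← hdm] at hc
    rw [sum_eq_single ((y % q ^ (t + l)) % q ^ t)]
    · rw [if_pos]
      rw [← hc, mul_comm]
      exact (Nat.div_add_mod _ _).symm
    · intro z hz hne
      rw [mem_range] at hz
      rw [if_neg]
      intro he
      apply hne
      rw [he, Nat.mul_add_mod', Nat.mod_eq_of_lt hz]
    · intro h
      exact absurd (mem_range.2 (Nat.mod_lt _ hqt)) h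
  · rw [if_neg hc]
    refine sum_eq_zero fun z hz => ?_
    rw [mem_range] at hz
    rw [if_neg]
    intro he
    apply hc
    rw [← hdm, he, mul_comm, Nat.mul_add_div hqt, Nat.div_eq_of_lt hz, add_zero]

theorem harm_sum (Q : ℕ) :
    ∑ h ∈ Ico 1 Q, (1 / (h : ℝ) + 1 / ((Q : ℝ) - h)) ≤ 2 * (1 + Real.log Q) := by
  have h1 : ∑ h ∈ Ico 1 Q, (1 / (h : ℝ)) ≤ 1 + Real.log Q := by
    have h2 := harmonic_le_one_add_log Q
    rw [harmonic_eq_sum_Icc] at h2
    push_cast at h2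
    refine le_trans ?_ h2
    refine (sum_le_sum_of_subset_of_nonneg (t := Icc 1 Q) ?_ ?_).trans (le_of_eq ?_)
    · intro h hh
      rw [mem_Ico] at hh
      rw [mem_Icc]; omega
    · intro i _ _
      positivity
    · refine sum_congr rfl fun i _ => ?_
      rw [one_div]
  have h3 : ∑ h ∈ Ico 1 Q, (1 / ((Q : ℝ) - h)) = ∑ h ∈ Ico 1 Q, (1 / (h : ℝ)) := by
    refine sum_bij' (fun h _ => Q - h) (fun h _ => Q - h) ?_ ?_ ?_ ?_ ?_
    · intro h hh; rw [mem_Ico] at hh ⊢; omega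
    · intro h hh; rw [mem_Ico] at hh ⊢; omega
    · intro h hh; rw [mem_Ico] at hh; show Q - (Q - h) = h; omega
    · intro h hh; rw [mem_Ico] at hh; show Q - (Q - h) = h; omega
    · intro h hh
      rw [mem_Ico] at hh
      rw [Nat.cast_sub hh.2.le]
  rw [sum_add_distrib, h3]
  linarith

end F1

open F1 in
theorem taskF1 : TaskF1 := by
  intro q t l w N x B hq hw hB hS
  have hq0 : 0 < q := by omega
  have hqR : (0 : ℝ) < q := by exact_mod_cast hq0
  have hqC : (q : ℂ) ≠ 0 := by exact_mod_cast hq0.ne'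
  set Q : ℕ := q ^ (t + l) with hQ
  have hQ0 : 0 < Q := by positivity
  have hQR : (0 : ℝ) < (q : ℝ) ^ (t + l) := by positivity
  set S : ℕ → ℂ := fun h => ∑ n ∈ range N, ee ((h : ℝ) * (x n : ℝ) / (q : ℝ) ^ (t + l)) with hSdef
  set cN : ℕ := #{n ∈ range N | x n / q ^ t % q ^ l = w} with hcN
  have hmain : (q : ℂ) ^ (t + l) * (cN : ℂ) = ∑ h ∈ range Q, F q t l w h * S h := by
    have e1 : ∑ h ∈ range Q, F q t l w h * S h =
        ∑ n ∈ range N, ∑ h ∈ range Q, F q t l w h * ee ((h : ℝ) * (x n : ℝ) / (q : ℝ) ^ (t + l)) := by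
      rw [sum_comm]
      refine sum_congr rfl fun h _ => ?_
      simp only [hSdef, mul_sum]
    rw [e1]
    have e2 : ∀ n ∈ range N, ∑ h ∈ range Q,
        F q t l w h * ee ((h : ℝ) * (x n : ℝ) / (q : ℝ) ^ (t + l)) =
          if x n / q ^ t % q ^ l = w then (q : ℂ) ^ (t + l) else 0 := fun n _ =>
      expansion hq hw (x n)
    rw [sum_congr rfl e2, ← sum_filter, sum_const, nsmul_eq_mul, mul_comm]
  have hsplit : ∑ h ∈ range Q, F q t l w h * S h =
      (q : ℂ) ^ t * N + ∑ h ∈ Ico 1 Q, F q t l w h * S h := by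
    rw [range_eq_Ico, sum_eq_sum_Ico_succ_bot hQ0, F_zero]
    congr 1
    simp only [hSdef]
    have : ∀ n ∈ range N, ee (((0 : ℕ) : ℝ) * (x n : ℝ) / (q : ℝ) ^ (t + l)) = 1 := by
      intro n _
      rw [Nat.cast_zero, zero_mul, zero_div, ee_zero]
    rw [sum_congr rfl this]
    simp
  have hterm : ∀ h ∈ Ico 1 Q, ‖F q t l w h * S h‖ ≤
      (q : ℝ) ^ (t + l) / 2 * B * (1 / h + 1 / ((q : ℝ) ^ (t + l) - h)) := by
    intro h hh
    rw [mem_Ico] at hh
    have hhQ : (h : ℝ) < (q : ℝ) ^ (t + l) := by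
      have : ((h : ℕ) : ℝ) < ((q ^ (t + l) : ℕ) : ℝ) := by exact_mod_cast hh.2
      push_cast at this; exact this
    have hpos : 0 ≤ 1 / (h : ℝ) + 1 / ((q : ℝ) ^ (t + l) - h) := by
      have : 0 < (q : ℝ) ^ (t + l) - h := by linarith
      positivity
    by_cases hd : q ^ l ∣ h
    · rw [F_dvd hq (by omega) hh.2 hd, zero_mul, norm_zero]
      positivity
    · rw [norm_mul]
      have h1 := F_norm (w := w) hq (by omega : 0 < h) hh.2
      have h2 := hS h (by omega) hh.2 hd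
      calc ‖F q t l w h‖ * ‖S h‖ ≤ ((q : ℝ) ^ (t + l) / 2 *
            (1 / h + 1 / ((q : ℝ) ^ (t + l) - h))) * B :=
            mul_le_mul h1 h2 (norm_nonneg _) (by positivity)
        _ = _ := by ring
  have hsum : ‖∑ h ∈ Ico 1 Q, F q t l w h * S h‖ ≤
      (q : ℝ) ^ (t + l) * B * (1 + ((t + l : ℕ) : ℝ) * Real.log q) := by
    refine (norm_sum_le _ _).trans ((sum_le_sum hterm).trans ?_)
    rw [← mul_sum]
    have h1 := harm_sum Q
    have h2 : ((Q : ℕ) : ℝ) = (q : ℝ) ^ (t + l) := by rw [hQ]; push_cast; rfl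
    rw [h2, Real.log_pow] at h1
    calc (q : ℝ) ^ (t + l) / 2 * B * ∑ h ∈ Ico 1 Q, (1 / (h : ℝ) + 1 / ((q : ℝ) ^ (t + l) - h))
        ≤ (q : ℝ) ^ (t + l) / 2 * B * (2 * (1 + ((t + l : ℕ) : ℝ) * Real.log q)) :=
          mul_le_mul_of_nonneg_left h1 (by positivity)
      _ = _ := by ring
  have hdiff : (q : ℂ) ^ (t + l) * ((cN : ℂ) - (N : ℂ) / (q : ℂ) ^ l) =
      ∑ h ∈ Ico 1 Q, F q t l w h * S h := by
    rw [mul_sub, hmain, hsplit]
    have : (q : ℂ) ^ (t + l) * ((N : ℂ) / (q : ℂ) ^ l) = (q : ℂ) ^ t * N := by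
      rw [pow_add]; field_simp
    rw [this]; ring
  have hn : ‖(cN : ℂ) - (N : ℂ) / (q : ℂ) ^ l‖ = |(cN : ℝ) - (N : ℝ) / (q : ℝ) ^ l| := by
    have : (cN : ℂ) - (N : ℂ) / (q : ℂ) ^ l = (((cN : ℝ) - (N : ℝ) / (q : ℝ) ^ l : ℝ) : ℂ) := by
      push_cast; rfl
    rw [this, Complex.norm_real, Real.norm_eq_abs]
  have hfin := hsum
  rw [← hdiff, norm_mul, hn, norm_pow, Complex.norm_natCast] at hfin
  have h5 : (q : ℝ) ^ (t + l) * |(cN : ℝ) - (N : ℝ) / (q : ℝ) ^ l| ≤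
      (q : ℝ) ^ (t + l) * ((1 + ((t + l : ℕ) : ℝ) * Real.log q) * B) := by
    refine hfin.trans (le_of_eq ?_); ring
  exact le_of_mul_le_mul_left h5 hQR

end Pool.Agent.H46R3.DG
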