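import Mathlib
import Pool.Agent.H46R3.DG.Stmts2
import Pool.Agent.H8R3.DG.TaskI

set_option autoImplicit false

namespace Pool.Agent.H46R3.DG

open Finset
open Pool.Agent.Helper602.MK (ee)

theorem taskF2U (h1 : TaskF1) (p q s : ℕ) (hq : q.Prime) (hE : ESum p q s) : BlkU p q s := by
  intro C hC
  obtain ⟨δ, K, hδ, hK, hS⟩ := hE C hC
  have hq2 : 2 ≤ q := hq.two_le
  have hlq : 0 ≤ Real.log q := Real.log_nonneg (by exact_mod_cast (by omega : 1 ≤ q))
  refine ⟨δ / 2, K * (1 + C * Real.log q * (1 / (δ / 2))), by positivity, by positivity, ?_⟩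
  intro N t l w z hN hst hle hw hz
  have hN1 : (1 : ℝ) ≤ N := by exact_mod_cast hN
  have hN0 : (0 : ℝ) < N := by linarith
  have hB : 0 ≤ K * (N : ℝ) ^ (1 - δ) := by positivity
  have h2 := h1 q t l w N (fun n => z * p ^ n) (K * (N : ℝ) ^ (1 - δ)) hq2 hw hB (by
    intro h hh0 hh1 hh2
    obtain ⟨i, a, ha, rfl⟩ := Nat.exists_eq_pow_mul_and_not_dvd hh0.ne' q hq.ne_one
    have hil : i < l := by
      by_contra hcon
      push Not at hcon
      exact hh2 (Dvd.dvd.mul_right (pow_dvd_pow q hcon) a)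
    have hq0 : (0 : ℝ) < q := by exact_mod_cast hq.pos
    have haz : ¬ q ∣ a * z := by
      intro hd
      rcases (Nat.Prime.dvd_mul hq).1 hd with h5 | h5
      · exact ha h5
      · exact hz h5
    have h3 := hS N (t + l - i) (a * z) hN (by omega) (by
      refine le_trans ?_ hle
      exact_mod_cast Nat.sub_le _ _) haz
    refine le_trans (le_of_eq ?_) h3
    congr 1
    refine Finset.sum_congr rfl fun n _ => ?_
    congr 1
    have h4 : (q : ℝ) ^ (t + l) = (q : ℝ) ^ i * (q : ℝ) ^ (t + l - i) := by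
      rw [← pow_add]
      congr 1
      omega
    rw [h4]
    push_cast
    have h5 : (0 : ℝ) < (q : ℝ) ^ i := by positivity
    have h6 : (0 : ℝ) < (q : ℝ) ^ (t + l - i) := by positivity
    field_simp)
  refine h2.trans ?_
  have hlog : Real.log N ≤ (N : ℝ) ^ (δ / 2) / (δ / 2) :=
    Real.log_le_rpow_div hN0.le (by positivity)
  have hone : 1 ≤ (N : ℝ) ^ (δ / 2) := Real.one_le_rpow hN1 (by positivity)
  have h3 : 1 + ((t + l : ℕ) : ℝ) * Real.log q ≤
      (1 + C * Real.log q * (1 / (δ / 2))) * (N : ℝ) ^ (δ / 2) := by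
    have h4 : ((t + l : ℕ) : ℝ) * Real.log q ≤ (C * Real.log N) * Real.log q :=
      mul_le_mul_of_nonneg_right hle hlq
    have h5 : (C * Real.log N) * Real.log q ≤
        (C * ((N : ℝ) ^ (δ / 2) / (δ / 2))) * Real.log q :=
      mul_le_mul_of_nonneg_right (mul_le_mul_of_nonneg_left hlog hC.le) hlq
    have h6 : (C * ((N : ℝ) ^ (δ / 2) / (δ / 2))) * Real.log q =
        C * Real.log q * (1 / (δ / 2)) * (N : ℝ) ^ (δ / 2) := by ring
    rw [add_mul, one_mul]
    linarith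
  calc (1 + ((t + l : ℕ) : ℝ) * Real.log q) * (K * (N : ℝ) ^ (1 - δ))
      ≤ ((1 + C * Real.log q * (1 / (δ / 2))) * (N : ℝ) ^ (δ / 2)) *
          (K * (N : ℝ) ^ (1 - δ)) := mul_le_mul_of_nonneg_right h3 hB
    _ = K * (1 + C * Real.log q * (1 / (δ / 2))) *
          ((N : ℝ) ^ (δ / 2) * (N : ℝ) ^ (1 - δ)) := by ring
    _ = K * (1 + C * Real.log q * (1 / (δ / 2))) * (N : ℝ) ^ (1 - δ / 2) := by
        rw [← Real.rpow_add hN0]
        congr 2
        ring

/-! ### words in blocks -/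

theorem word_block (q y l L i : ℕ) (hi : i + L ≤ l) :
    y % q ^ l / q ^ i % q ^ L = y / q ^ i % q ^ L := by
  obtain ⟨j, rfl⟩ := Nat.exists_eq_add_of_le hi
  have h1 : q ^ (i + L + j) = q ^ i * q ^ (L + j) := by rw [← pow_add, add_assoc]
  rw [h1, Nat.mod_mul_right_div_self, Nat.mod_mod_of_dvd _ (pow_dvd_pow q (Nat.le_add_right L j))]

theorem near (l L : ℕ) (P P' : ℕ → Prop) [DecidablePred P] [DecidablePred P']
    (h : ∀ i, i + L ≤ l → P i → P' i) :
    #{i ∈ range l | P i} ≤ #{i ∈ range l | P' i} + L := by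
  have hsub : {i ∈ range l | P i} ⊆ {i ∈ range l | P' i} ∪ Ico (l - L) l := by
    intro i hi
    rw [mem_filter, mem_range] at hi
    rw [mem_union, mem_filter, mem_range, mem_Ico]
    by_cases h1 : i + L ≤ l
    · exact Or.inl ⟨hi.1, h i h1 hi.2⟩
    · exact Or.inr ⟨by omega, hi.1⟩
  have h2 := (card_le_card hsub).trans (card_union_le _ _)
  rw [Nat.card_Ico] at h2
  omega

theorem cw_split (q L x a l v : ℕ) : cw q L x (a + l) v =
    cw q L x a v + #{i ∈ range l | x / q ^ (a + i) % q ^ L = v} := by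
  unfold cw
  rw [card_filter, card_filter, card_filter, sum_range_add]

theorem cw_block (q L x a l v : ℕ) :
    #{i ∈ range l | x / q ^ (a + i) % q ^ L = v} ≤ cw q L (x / q ^ a % q ^ l) l v + L ∧
    cw q L (x / q ^ a % q ^ l) l v ≤ #{i ∈ range l | x / q ^ (a + i) % q ^ L = v} + L := by
  have key : ∀ i, i + L ≤ l → (x / q ^ (a + i) % q ^ L = v ↔
      x / q ^ a % q ^ l / q ^ i % q ^ L = v) := by
    intro i hi
    rw [word_block q _ l L i hi, Nat.div_div_eq_div_mul, ← pow_add]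
  exact ⟨near l L _ _ fun i hi h => (key i hi).1 h, near l L _ _ fun i hi h => (key i hi).2 h⟩

theorem cw_le (q L x W v : ℕ) : cw q L x W v ≤ W := by
  unfold cw
  exact (card_filter_le _ _).trans (card_range W).le

theorem cw_blocks (q L x s l v B : ℕ) :
    |(cw q L x (s + B * l) v : ℝ) - (cw q L x s v +
      ∑ i ∈ range B, (cw q L (x / q ^ (s + i * l) % q ^ l) l v : ℝ))| ≤ B * L := by
  induction B with
  | zero => simp
  | succ B ih =>
    have h0 : s + (B + 1) * l = (s + B * l) + l := by ring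
    rw [h0, cw_split, sum_range_succ]
    obtain ⟨h1, h2⟩ := cw_block q L x (s + B * l) l v
    have h1' : ((#{i ∈ range l | x / q ^ (s + B * l + i) % q ^ L = v} : ℕ) : ℝ) ≤
        cw q L (x / q ^ (s + B * l) % q ^ l) l v + L := by exact_mod_cast h1
    have h2' : (cw q L (x / q ^ (s + B * l) % q ^ l) l v : ℝ) ≤
        ((#{i ∈ range l | x / q ^ (s + B * l + i) % q ^ L = v} : ℕ) : ℝ) + L := by
      exact_mod_cast h2
    obtain ⟨h3, h4⟩ := abs_le.1 ih
    push_cast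
    rw [abs_le]
    constructor <;> linarith

theorem detU (q L x s l v B W : ℕ) (ε' : ℝ) (hW1 : s + B * l ≤ W) (hW2 : W < s + B * l + l)
    (hgood : ∀ i < B, |(cw q L (x / q ^ (s + i * l) % q ^ l) l v : ℝ) - (l : ℝ) / (q : ℝ) ^ L|
      ≤ ε' * l) :
    |(cw q L x W v : ℝ) - (B * l : ℝ) / (q : ℝ) ^ L| ≤ s + l + ε' * (B * l) + B * L := by
  obtain ⟨R, hR⟩ := Nat.exists_eq_add_of_le hW1
  have hRl : R < l := by omega
  rw [hR, cw_split]
  have h1 := cw_le q L x s v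
  have h2 : #{i ∈ range R | x / q ^ (s + B * l + i) % q ^ L = v} ≤ R :=
    (card_filter_le _ _).trans (card_range R).le
  have h1' : (cw q L x s v : ℝ) ≤ s := by exact_mod_cast h1
  have h2' : ((#{i ∈ range R | x / q ^ (s + B * l + i) % q ^ L = v} : ℕ) : ℝ) ≤ l := by
    exact_mod_cast h2.trans hRl.le
  have h3 : |(∑ i ∈ range B, (cw q L (x / q ^ (s + i * l) % q ^ l) l v : ℝ)) -
      (B * l : ℝ) / (q : ℝ) ^ L| ≤ ε' * (B * l) := by
    have e1 : (B * l : ℝ) / (q : ℝ) ^ L = ∑ i ∈ range B, (l : ℝ) / (q : ℝ) ^ L := by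
      rw [sum_const, card_range, nsmul_eq_mul, mul_div_assoc]
    rw [e1, ← sum_sub_distrib]
    refine (abs_sum_le_sum_abs _ _).trans ?_
    refine (sum_le_sum fun i hi => hgood i (mem_range.1 hi)).trans ?_
    rw [sum_const, card_range, nsmul_eq_mul]
    exact le_of_eq (by ring)
  push_cast
  have h4 := abs_le.1 h3
  have h4' := abs_le.1 (cw_blocks q L x s l v B)
  have h5 : (0 : ℝ) ≤ cw q L x s v := Nat.cast_nonneg _
  have h6 : (0 : ℝ) ≤ ((#{i ∈ range R | x / q ^ (s + B * l + i) % q ^ L = v} : ℕ) : ℝ) :=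
    Nat.cast_nonneg _
  have h7 : (0 : ℝ) ≤ (s : ℝ) := Nat.cast_nonneg _
  have h8 : (0 : ℝ) ≤ (l : ℝ) := Nat.cast_nonneg _
  have h9 : (0 : ℝ) ≤ (B : ℝ) * L := by positivity
  rw [abs_le]
  constructor <;> linarith [h4.1, h4.2, h4'.1, h4'.2]

/-- the count of the exceptional set -/
theorem exc_cardU (q L s N l B : ℕ) (x : ℕ → ℕ) (ε' A D : ℝ) (hA : 0 ≤ A)
    (hblk : ∀ i < B, ∀ w < q ^ l,
      ((#{n ∈ range N | x n / q ^ (s + i * l) % q ^ l = w} : ℕ) : ℝ) ≤ A)
    (hbad : ∀ v < q ^ L,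
      ((#{w ∈ range (q ^ l) | ε' * l < |(cw q L w l v : ℝ) - (l : ℝ) / (q : ℝ) ^ L|} : ℕ) : ℝ)
      ≤ D) (hq : 0 < q) :
    ((#{n ∈ range N | ∃ v < q ^ L, ∃ i < B,
      ε' * l < |(cw q L (x n / q ^ (s + i * l) % q ^ l) l v : ℝ) -
        (l : ℝ) / (q : ℝ) ^ L|} : ℕ) : ℝ) ≤ (q : ℝ) ^ L * (B * (D * A)) := by
  classical
  have hsub : {n ∈ range N | ∃ v < q ^ L, ∃ i < B,
      ε' * l < |(cw q L (x n / q ^ (s + i * l) % q ^ l) l v : ℝ) - (l : ℝ) / (q : ℝ) ^ L|} ⊆
      (range (q ^ L)).biUnion fun b => (range B).biUnion fun i =>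
        ({w ∈ range (q ^ l) | ε' * l < |(cw q L w l b : ℝ) - (l : ℝ) / (q : ℝ) ^ L|}).biUnion
          fun w => {n ∈ range N | x n / q ^ (s + i * l) % q ^ l = w} := by
    intro n hn
    rw [mem_filter] at hn
    obtain ⟨hn, b, hb, i, hi, h⟩ := hn
    simp only [mem_biUnion, mem_range, mem_filter]
    exact ⟨b, hb, i, hi, _, ⟨Nat.mod_lt _ (pow_pos hq _), h⟩, mem_range.1 hn, rfl⟩
  have h1 : ((#{n ∈ range N | ∃ v < q ^ L, ∃ i < B,
      ε' * l < |(cw q L (x n / q ^ (s + i * l) % q ^ l) l v : ℝ) -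
        (l : ℝ) / (q : ℝ) ^ L|} : ℕ) : ℝ) ≤
      ∑ b ∈ range (q ^ L), ∑ i ∈ range B,
        ∑ w ∈ {w ∈ range (q ^ l) | ε' * l < |(cw q L w l b : ℝ) - (l : ℝ) / (q : ℝ) ^ L|},
          ((#{n ∈ range N | x n / q ^ (s + i * l) % q ^ l = w} : ℕ) : ℝ) := by
    have h2 := card_le_card hsub
    have h3 := h2.trans (card_biUnion_le.trans (sum_le_sum fun b _ =>
      card_biUnion_le.trans (sum_le_sum fun i _ => card_biUnion_le)))
    exact_mod_cast h3
  refine h1.trans ?_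
  have h4 : ∀ b ∈ range (q ^ L), ∑ i ∈ range B,
        ∑ w ∈ {w ∈ range (q ^ l) | ε' * l < |(cw q L w l b : ℝ) - (l : ℝ) / (q : ℝ) ^ L|},
          ((#{n ∈ range N | x n / q ^ (s + i * l) % q ^ l = w} : ℕ) : ℝ) ≤ B * (D * A) := by
    intro b hb
    have h5 : ∀ i ∈ range B,
        ∑ w ∈ {w ∈ range (q ^ l) | ε' * l < |(cw q L w l b : ℝ) - (l : ℝ) / (q : ℝ) ^ L|},
          ((#{n ∈ range N | x n / q ^ (s + i * l) % q ^ l = w} : ℕ) : ℝ) ≤ D * A := by
      intro i hi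
      refine (sum_le_sum (g := fun _ => A) fun w hw => ?_).trans ?_
      · exact hblk i (mem_range.1 hi) w (mem_range.1 (mem_filter.1 hw).1)
      · rw [sum_const, nsmul_eq_mul]
        exact mul_le_mul_of_nonneg_right (hbad b (mem_range.1 hb)) hA
    refine (sum_le_sum h5).trans ?_
    rw [sum_const, card_range, nsmul_eq_mul]
  refine (sum_le_sum h4).trans ?_
  rw [sum_const, card_range, nsmul_eq_mul]
  push_cast
  exact le_rfl

end Pool.Agent.H46R3.DG
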