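import Mathlib
import Pool.Agent.H46R3.DG.Uni

set_option autoImplicit false

namespace Pool.Agent.H46R3.DG

open Finset

theorem taskHU (hG : LDW) (p q s : ℕ) (hq : q.Prime) (hB : BlkU p q s) : LowU p q := by
  intro C ε L hC hε hL
  have hq2 : 2 ≤ q := hq.two_le
  have hq1 : (1 : ℝ) < q := by exact_mod_cast hq2
  have hq2' : (2 : ℝ) ≤ q := by exact_mod_cast hq2
  have hq0 : (0 : ℝ) < q := by linarith
  obtain ⟨g, hg⟩ : ∃ g : ℝ, g = Real.log q := ⟨_, rfl⟩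
  have hg0 : 0 < g := by rw [hg]; exact Real.log_pos hq1
  obtain ⟨ε', hε'⟩ : ∃ ε' : ℝ, ε' = ε / (2 * C) := ⟨_, rfl⟩
  have hε'0 : 0 < ε' := by rw [hε']; positivity
  have hε'C : ε' * C = ε / 2 := by rw [hε']; field_simp
  obtain ⟨η, KG, hη, hKG, hGG⟩ := hG q L ε' hq2 hL hε'0
  have hqL2 : (2 : ℝ) ≤ (q : ℝ) ^ L := hq2'.trans (le_self_pow₀ (by linarith) (by omega))
  have hqL0 : (0 : ℝ) < (q : ℝ) ^ L := by linarith
  have hL0 : (0 : ℝ) ≤ L := Nat.cast_nonneg _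
  obtain ⟨δ, K, hδ, hK, hBB⟩ := hB C hC
  obtain ⟨κ, hκ0, hκ1, hκ2⟩ : ∃ κ : ℝ, 0 < κ ∧ κ ≤ ε / 8 ∧ κ * g ≤ δ / 2 := by
    refine ⟨min (ε / 8) (δ / 2 / g), lt_min (by positivity) (by positivity), min_le_left _ _, ?_⟩
    calc min (ε / 8) (δ / 2 / g) * g ≤ (δ / 2 / g) * g :=
          mul_le_mul_of_nonneg_right (min_le_right _ _) hg0.le
      _ = δ / 2 := by field_simp
  -- threshold
  obtain ⟨ℓ₀, hℓ₀⟩ : ∃ ℓ₀ : ℝ, ∀ ℓ : ℝ, ℓ₀ ≤ ℓ → (8 * s + 8) / ε ≤ ℓ ∧ 2 / κ ≤ ℓ ∧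
      (s + 1) / C ≤ ℓ ∧ 2 * C / κ * L * 8 / ε ≤ ℓ := by
    refine Filter.eventually_atTop.1 ?_
    exact (Filter.eventually_ge_atTop _).and ((Filter.eventually_ge_atTop _).and
      ((Filter.eventually_ge_atTop _).and (Filter.eventually_ge_atTop _)))
  obtain ⟨δ', hδ'⟩ : ∃ δ' : ℝ, δ' = min (η * κ * g) (δ / 2) := ⟨_, rfl⟩
  have hδ'0 : 0 < δ' := by rw [hδ']; exact lt_min (by positivity) (by positivity)
  have hδ'1 : δ' ≤ η * κ * g := by rw [hδ']; exact min_le_left _ _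
  have hδ'2 : δ' ≤ δ / 2 := by rw [hδ']; exact min_le_right _ _
  refine ⟨min δ' 1, (q : ℝ) ^ L * (2 * C / κ) * (KG * Real.exp (η * g) + K) + Real.exp ℓ₀,
    lt_min hδ'0 one_pos, by positivity, ?_⟩
  intro N z hN hz
  have hN1 : (1 : ℝ) ≤ N := by exact_mod_cast hN
  have hN0 : (0 : ℝ) < N := by linarith
  obtain ⟨ℓ, hℓ⟩ : ∃ ℓ : ℝ, ℓ = Real.log N := ⟨_, rfl⟩
  rw [← hℓ]
  have hℓ0 : 0 ≤ ℓ := by rw [hℓ]; exact Real.log_nonneg hN1
  have hNexp : (N : ℝ) = Real.exp ℓ := by rw [hℓ]; exact (Real.exp_log hN0).symm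
  have hpow : ∀ y : ℝ, (N : ℝ) ^ y = Real.exp (y * ℓ) := by
    intro y
    rw [Real.rpow_def_of_pos hN0, mul_comm, hℓ]
  have hN' : (N : ℝ) ^ (1 - δ') ≤ (N : ℝ) ^ (1 - min δ' 1) :=
    Real.rpow_le_rpow_of_exponent_le hN1 (by linarith [min_le_left δ' 1])
  have hN'' : 1 ≤ (N : ℝ) ^ (1 - min δ' 1) :=
    Real.one_le_rpow hN1 (by linarith [min_le_right δ' 1])
  have hcoef : 0 ≤ (q : ℝ) ^ L * (2 * C / κ) * (KG * Real.exp (η * g) + K) := by positivity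
  rcases lt_or_ge ℓ ℓ₀ with hsm | hbig
  · have h1 : ((#{n ∈ range N | ∃ v < q ^ L, ε * ℓ <
        |(cw q L (z * p ^ n) ⌊C * ℓ⌋₊ v : ℝ) - C * ℓ / (q : ℝ) ^ L|} : ℕ) : ℝ) ≤ N := by
      have := (card_filter_le (range N) (fun n => ∃ v < q ^ L, ε * ℓ <
        |(cw q L (z * p ^ n) ⌊C * ℓ⌋₊ v : ℝ) - C * ℓ / (q : ℝ) ^ L|)).trans (card_range N).le
      exact_mod_cast this
    have h2 : (N : ℝ) ≤ Real.exp ℓ₀ := by
      rw [hNexp]; exact Real.exp_le_exp.2 hsm.le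
    nlinarith [Real.exp_pos ℓ₀]
  obtain ⟨t1, t2, t3, t4⟩ := hℓ₀ ℓ hbig
  rw [div_le_iff₀ hε] at t4
  rw [div_le_iff₀ hε] at t1
  rw [div_le_iff₀ hκ0] at t2
  rw [div_le_iff₀ hC] at t3
  obtain ⟨W, hW⟩ : ∃ W : ℕ, W = ⌊C * ℓ⌋₊ := ⟨_, rfl⟩
  obtain ⟨l, hl⟩ : ∃ l : ℕ, l = ⌊κ * ℓ⌋₊ := ⟨_, rfl⟩
  rw [← hW]
  have hW1 : (W : ℝ) ≤ C * ℓ := by rw [hW]; exact Nat.floor_le (by positivity)
  have hW2 : C * ℓ < W + 1 := by rw [hW]; exact Nat.lt_floor_add_one _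
  have hl1 : (l : ℝ) ≤ κ * ℓ := by rw [hl]; exact Nat.floor_le (by positivity)
  have hl2 : κ * ℓ < l + 1 := by rw [hl]; exact Nat.lt_floor_add_one _
  have hlpos : 0 < l := by
    have : (0 : ℝ) < l := by nlinarith
    exact_mod_cast this
  have hlpos' : (1 : ℝ) ≤ l := by exact_mod_cast hlpos
  have hsW : s ≤ W := by
    have : (s : ℝ) < W + 1 := by nlinarith
    have h2 : s < W + 1 := by exact_mod_cast this
    omega
  obtain ⟨B, hBd⟩ : ∃ B : ℕ, B = (W - s) / l := ⟨_, rfl⟩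
  have hBl1 : B * l ≤ W - s := by rw [hBd]; exact Nat.div_mul_le_self _ _
  have hBl2 : W - s < B * l + l := by
    have := Nat.lt_div_mul_add (a := W - s) hlpos
    rw [hBd]; exact this
  have hWB1 : s + B * l ≤ W := by omega
  have hWB2 : W < s + B * l + l := by omega
  have hWB1' : (s : ℝ) + B * l ≤ W := by exact_mod_cast hWB1
  have hWB2' : (W : ℝ) < s + B * l + l := by exact_mod_cast hWB2
  have hs0 : (0 : ℝ) ≤ s := Nat.cast_nonneg _
  have hB0 : (0 : ℝ) ≤ B := Nat.cast_nonneg _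
  have hBle : (B : ℝ) ≤ 2 * C / κ := by
    rw [le_div_iff₀ hκ0]
    have h1 : (B : ℝ) * l ≤ C * ℓ := by linarith
    have h2 : κ * ℓ / 2 ≤ l := by linarith
    have h3 : (B : ℝ) * (κ * ℓ / 2) ≤ B * l := mul_le_mul_of_nonneg_left h2 hB0
    have h4 : 0 < ℓ := by nlinarith
    have h5 : (B : ℝ) * κ * ℓ ≤ 2 * C * ℓ := by linarith
    exact le_of_mul_le_mul_right h5 h4
  -- inclusion
  have hincl : {n ∈ range N | ∃ v < q ^ L, ε * ℓ < |(cw q L (z * p ^ n) W v : ℝ) - C * ℓ / (q : ℝ) ^ L|} ⊆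
      {n ∈ range N | ∃ v < q ^ L, ∃ i < B,
        ε' * l < |(cw q L (z * p ^ n / q ^ (s + i * l) % q ^ l) l v : ℝ) - (l : ℝ) / (q : ℝ) ^ L|} := by
    intro n hn
    rw [mem_filter] at hn ⊢
    obtain ⟨hn, b, hb, h⟩ := hn
    refine ⟨hn, b, hb, ?_⟩
    by_contra hcon
    push Not at hcon
    have h1 := detU q L (z * p ^ n) s l b B W ε' hWB1 hWB2 hcon
    have h2 : |(B * l : ℝ) / (q : ℝ) ^ L - C * ℓ / (q : ℝ) ^ L| ≤ (s + l + 1) / 2 := by
      rw [← sub_div, abs_div, abs_of_pos hqL0]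
      have h3 : |(B * l : ℝ) - C * ℓ| ≤ s + l + 1 := by
        rw [abs_le]; constructor <;> linarith
      calc |(B * l : ℝ) - C * ℓ| / (q : ℝ) ^ L ≤ (s + l + 1) / (q : ℝ) ^ L :=
            div_le_div_of_nonneg_right h3 hqL0.le
        _ ≤ (s + l + 1) / 2 := by
            apply div_le_div_of_nonneg_left (by positivity) (by norm_num) hqL2
    have h3 : ε' * (B * l) ≤ ε / 2 * ℓ := by
      have : (B : ℝ) * l ≤ C * ℓ := by linarith
      calc ε' * (B * l) ≤ ε' * (C * ℓ) := mul_le_mul_of_nonneg_left this hε'0.le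
        _ = ε / 2 * ℓ := by rw [← mul_assoc, hε'C]
    have h4 : |(cw q L (z * p ^ n) W b : ℝ) - C * ℓ / (q : ℝ) ^ L| ≤ ε * ℓ := by
      have h5 : (cw q L (z * p ^ n) W b : ℝ) - C * ℓ / (q : ℝ) ^ L =
        ((cw q L (z * p ^ n) W b : ℝ) - (B * l : ℝ) / (q : ℝ) ^ L) +
          ((B * l : ℝ) / (q : ℝ) ^ L - C * ℓ / (q : ℝ) ^ L) := by ring
      rw [h5]
      refine (abs_add_le _ _).trans ?_
      have h6 : κ * ℓ ≤ ε / 8 * ℓ := mul_le_mul_of_nonneg_right hκ1 hℓ0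
      have h7 : (B : ℝ) * L ≤ 2 * C / κ * L := mul_le_mul_of_nonneg_right hBle hL0
      have h8 : (0 : ℝ) ≤ s := hs0
      linarith
    linarith
  have hcard1 : ((#{n ∈ range N | ∃ v < q ^ L, ε * ℓ <
      |(cw q L (z * p ^ n) W v : ℝ) - C * ℓ / (q : ℝ) ^ L|} : ℕ) : ℝ) ≤
      ((#{n ∈ range N | ∃ v < q ^ L, ∃ i < B,
        ε' * l < |(cw q L (z * p ^ n / q ^ (s + i * l) % q ^ l) l v : ℝ) - (l : ℝ) / (q : ℝ) ^ L|} : ℕ) : ℝ) := by
    exact_mod_cast card_le_card hincl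
  have hqlpos : (0 : ℝ) < (q : ℝ) ^ l := by positivity
  have hNδpos : 0 ≤ (N : ℝ) ^ (1 - δ) := by positivity
  obtain ⟨D, hD⟩ : ∃ D : ℝ, D = min (KG * (q : ℝ) ^ ((1 - η) * (l : ℝ))) ((q : ℝ) ^ l) := ⟨_, rfl⟩
  have hDpos : 0 ≤ D := by rw [hD]; exact le_min (by positivity) (by positivity)
  have hcard2 := exc_cardU q L s N l B (fun n => z * p ^ n) ε'
    ((N : ℝ) / (q : ℝ) ^ l + K * (N : ℝ) ^ (1 - δ)) D (by positivity) ?_ ?_ hq.pos
  · refine (hcard1.trans hcard2).trans ?_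
    have e1 : D * ((N : ℝ) / (q : ℝ) ^ l + K * (N : ℝ) ^ (1 - δ)) ≤
        (KG * Real.exp (η * g) + K) * (N : ℝ) ^ (1 - δ') := by
      have d1 : D * ((N : ℝ) / (q : ℝ) ^ l) ≤ KG * Real.exp (η * g) * (N : ℝ) ^ (1 - δ') := by
        have d2 : D ≤ KG * (q : ℝ) ^ ((1 - η) * (l : ℝ)) := by rw [hD]; exact min_le_left _ _
        have d3 : (q : ℝ) ^ ((1 - η) * (l : ℝ)) = Real.exp (g * ((1 - η) * l)) := by
          rw [Real.rpow_def_of_pos hq0, hg]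
        have d4 : (q : ℝ) ^ l = Real.exp (l * g) := by
          rw [Real.exp_nat_mul, hg, Real.exp_log hq0]
        have d5 : D * ((N : ℝ) / (q : ℝ) ^ l) ≤
            KG * (q : ℝ) ^ ((1 - η) * (l : ℝ)) * ((N : ℝ) / (q : ℝ) ^ l) :=
          mul_le_mul_of_nonneg_right d2 (by positivity)
        refine d5.trans ?_
        rw [d3, d4, hpow, hNexp, ← Real.exp_sub, mul_assoc, mul_assoc, ← Real.exp_add,
          ← Real.exp_add]
        apply mul_le_mul_of_nonneg_left _ hKG.le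
        apply Real.exp_le_exp.2
        have d6 : η * g * (κ * ℓ) ≤ η * g * (l + 1) :=
          mul_le_mul_of_nonneg_left hl2.le (by positivity)
        have d7 : δ' * ℓ ≤ η * κ * g * ℓ := mul_le_mul_of_nonneg_right hδ'1 hℓ0
        nlinarith
      have d2 : D * (K * (N : ℝ) ^ (1 - δ)) ≤ K * (N : ℝ) ^ (1 - δ') := by
        have d3 : D ≤ (q : ℝ) ^ l := by rw [hD]; exact min_le_right _ _
        have d4 : (q : ℝ) ^ l = Real.exp (l * g) := by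
          rw [Real.exp_nat_mul, hg, Real.exp_log hq0]
        have d5 : (q : ℝ) ^ l * (N : ℝ) ^ (1 - δ) ≤ (N : ℝ) ^ (1 - δ') := by
          rw [d4, hpow, hpow, ← Real.exp_add]
          apply Real.exp_le_exp.2
          have d6 : l * g ≤ κ * ℓ * g := mul_le_mul_of_nonneg_right hl1 hg0.le
          have d7 : κ * g * ℓ ≤ δ / 2 * ℓ := mul_le_mul_of_nonneg_right hκ2 hℓ0
          have d8 : δ' * ℓ ≤ δ / 2 * ℓ := mul_le_mul_of_nonneg_right hδ'2 hℓ0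
          nlinarith
        calc D * (K * (N : ℝ) ^ (1 - δ)) ≤ (q : ℝ) ^ l * (K * (N : ℝ) ^ (1 - δ)) :=
              mul_le_mul_of_nonneg_right d3 (by positivity)
          _ = K * ((q : ℝ) ^ l * (N : ℝ) ^ (1 - δ)) := by ring
          _ ≤ K * (N : ℝ) ^ (1 - δ') := mul_le_mul_of_nonneg_left d5 hK.le
      rw [mul_add, add_mul]
      exact add_le_add d1 d2
    have e2 : 0 ≤ (KG * Real.exp (η * g) + K) * (N : ℝ) ^ (1 - δ') := by positivity
    calc (q : ℝ) ^ L * (B * (D * ((N : ℝ) / (q : ℝ) ^ l + K * (N : ℝ) ^ (1 - δ))))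
        ≤ (q : ℝ) ^ L * (2 * C / κ * ((KG * Real.exp (η * g) + K) * (N : ℝ) ^ (1 - δ'))) := by
          apply mul_le_mul_of_nonneg_left _ hqL0.le
          exact mul_le_mul hBle e1 (by positivity) (by positivity)
      _ = (q : ℝ) ^ L * (2 * C / κ) * (KG * Real.exp (η * g) + K) * (N : ℝ) ^ (1 - δ') := by ring
      _ ≤ (q : ℝ) ^ L * (2 * C / κ) * (KG * Real.exp (η * g) + K) * (N : ℝ) ^ (1 - min δ' 1) :=
          mul_le_mul_of_nonneg_left hN' hcoef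
      _ ≤ ((q : ℝ) ^ L * (2 * C / κ) * (KG * Real.exp (η * g) + K) + Real.exp ℓ₀) *
          (N : ℝ) ^ (1 - min δ' 1) := by
          apply mul_le_mul_of_nonneg_right _ (by linarith)
          linarith [Real.exp_pos ℓ₀]
  · intro i hi w hw
    have h1 : s + i * l + l ≤ s + B * l := by
      have : (i + 1) * l ≤ B * l := Nat.mul_le_mul_right _ hi
      have h2 : (i + 1) * l = i * l + l := by ring
      omega
    have h2 : ((s + i * l + l : ℕ) : ℝ) ≤ C * Real.log N := by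
      rw [← hℓ]
      have h3 : ((s + i * l + l : ℕ) : ℝ) ≤ W := by exact_mod_cast h1.trans hWB1
      linarith
    have h3 := hBB N (s + i * l) l w z hN (by omega) h2 hw hz
    have h4 := (abs_le.1 h3).2
    linarith
  · intro b hb
    rw [hD]
    refine le_min (hGG l b hb) ?_
    have := (card_filter_le (range (q ^ l))
      (fun w => ε' * l < |(cw q L w l b : ℝ) - (l : ℝ) / (q : ℝ) ^ L|)).trans (card_range _).le
    exact_mod_cast this

end Pool.Agent.H46R3.DG
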