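import Mathlib
import Pool.Agent.H46R3.DG.TaskA0
import Pool.Agent.H46R3.DG.TaskD0
import Pool.Agent.H46R3.DG.TaskE
import Pool.Agent.H46R3.DG.UniH
import Pool.Agent.H46R3.DG.UniI
import Pool.Agent.H46R3.DG.GW0
import Pool.Agent.H127R3.DG.TaskB
import Pool.Agent.H783R3.DG.TaskC
import Pool.Agent.H46R3.DG.TaskF1_helper83
import Pool.Agent.H97R3.DG.TaskG

set_option autoImplicit false

namespace Pool.Agent.H46R3.DG

theorem final (p q : ℕ) (hp : p.Prime) (hq : q.Prime) (hpq : p ≠ q) :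
    (∃ s : ℕ, BlkU p q s) ∧ LowU p q ∧ FewU p q := by
  obtain ⟨T, s, hD0⟩ := Pool.Agent.H127R3.DG.taskB p q hp hq hpq
  have h1 : ESum p q s :=
    taskE Pool.Agent.H783R3.DG.taskC (D0.taskD A0.taskA) p q T s hD0
  have h0 : BlkU p q s := taskF2U taskF1 p q s hq h1
  have h2 : LowU p q := taskHU (GW0.taskGW Pool.Agent.H97R3.DG.taskG) p q s hq h0
  exact ⟨⟨s, h0⟩, h2, taskIU p q hp hq h2⟩

end Pool.Agent.H46R3.DG
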